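import Pool.Agent.L7h38.BQ.Ub

/-!
# The assembly
-/

set_option autoImplicit false

namespace Pool.Agent.L7h38.BQ

open MvPolynomial Finset

noncomputable section

theorem rename_hs {σ : Type} [DecidableEq σ] (g : Equiv.Perm σ) (A B : Finset σ) (j : ℕ)
    (hAB : ∀ s, g s ∈ B ↔ s ∈ A) : rename g (hs A j) = hs B j := by
  classical
  unfold hs
  rw [map_sum]
  have hm : ∀ (f : Equiv.Perm σ) (C D : Finset σ) (_ : ∀ s, f s ∈ D ↔ s ∈ C) (a : σ →₀ ℕ),
      a ∈ C.finsuppAntidiag j → Finsupp.mapDomain f a ∈ D.finsuppAntidiag j := by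
    intro f C D hCD a ha
    rw [mem_finsuppAntidiag] at ha ⊢
    have hD : D = C.map f.toEmbedding := by
      ext x
      rw [Finset.mem_map_equiv, ← hCD, f.apply_symm_apply]
    constructor
    · rw [hD, Finset.sum_map, ← ha.1]
      refine Finset.sum_congr rfl ?_
      intro s _
      exact Finsupp.mapDomain_apply f.injective a s
    · intro x hx
      have h1 := Finsupp.mapDomain_support hx
      obtain ⟨s, hs, rfl⟩ := Finset.mem_image.1 h1
      exact (hCD s).2 (ha.2 hs)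
  refine Finset.sum_nbij' (fun a => Finsupp.mapDomain g a) (fun a => Finsupp.mapDomain g.symm a)
    ?_ ?_ ?_ ?_ ?_
  · exact fun a ha => hm g A B hAB a ha
  · exact fun a ha => hm g.symm B A (fun s => by rw [← hAB, g.apply_symm_apply]) a ha
  · intro a _
    rw [← Finsupp.mapDomain_comp]
    simp
  · intro a _
    rw [← Finsupp.mapDomain_comp]
    simp
  · intro a _
    rw [rename_monomial]

theorem esymm_hom {σ : Type} [Fintype σ] (j : ℕ) : (esymm σ ℚ j).IsHomogeneous j := by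
  unfold esymm
  refine IsHomogeneous.sum _ _ _ ?_
  intro t ht
  have h := IsHomogeneous.prod t (fun s : σ => (X s : MvPolynomial σ ℚ)) (fun _ => 1)
    (fun s _ => isHomogeneous_X _ _)
  rwa [Finset.sum_const, smul_eq_mul, mul_one, (Finset.mem_powersetCard.1 ht).2] at h

variable (r d : ℕ)

theorem rename_bat (g : Equiv.Perm (Fin r × Fin d)) (τ : Equiv.Perm (Fin r))
    (hg : ∀ s, (g s).1 = τ s.1) (i : Fin r) (j : ℕ) :
    rename g (hs (bat (Prod.fst : Fin r × Fin d → Fin r) i) j) =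
      hs (bat (Prod.fst : Fin r × Fin d → Fin r) (τ i)) j := by
  refine rename_hs g _ _ j ?_
  intro s
  unfold bat
  rw [Finset.mem_filter, Finset.mem_filter, hg]
  simp

theorem stab (g : Equiv.Perm (Fin r × Fin d)) (τ : Equiv.Perm (Fin r))
    (hg : ∀ s, (g s).1 = τ s.1) (k m : ℕ) :
    Jk r d k m ≤ (Jk r d k m).comap
      (rename g : MvPolynomial (Fin r × Fin d) ℚ →ₐ[ℚ] MvPolynomial (Fin r × Fin d) ℚ) := by
  refine Ideal.span_le.2 ?_
  rintro f (⟨j, hj, rfl⟩ | ⟨i, j, hj, rfl⟩)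
  · change rename g (esymm (Fin r × Fin d) ℚ j) ∈ Jk r d k m
    rw [rename_esymm]
    exact Ideal.subset_span (Or.inl ⟨j, hj, rfl⟩)
  · change rename g (hs (bat (Prod.fst : Fin r × Fin d → Fin r) i) j) ∈ Jk r d k m
    rw [rename_bat r d g τ hg]
    refine Ideal.subset_span (Or.inr ⟨τ i, j, ?_, rfl⟩)
    rw [card_bat] at hj ⊢
    exact hj

theorem homog (k m : ℕ) (p : MvPolynomial (Fin r × Fin d) ℚ) (hp : p ∈ Jk r d k m) (i : ℕ) :
    homogeneousComponent i p ∈ Jk r d k m := by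
  let _ := MvPolynomial.gradedAlgebra (σ := Fin r × Fin d) (R := ℚ)
  have h1 : (Jk r d k m).IsHomogeneous (homogeneousSubmodule (Fin r × Fin d) ℚ) := by
    refine Ideal.homogeneous_span _ _ ?_
    rintro f (⟨j, hj, rfl⟩ | ⟨i, j, hj, rfl⟩)
    · exact ⟨j, esymm_hom _⟩
    · exact ⟨j, hs_hom _ _⟩
  have h2 := h1 i hp
  have h3 : ((DirectSum.decompose (homogeneousSubmodule (Fin r × Fin d) ℚ) p) i :
      MvPolynomial (Fin r × Fin d) ℚ) = homogeneousComponent i p :=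
    MvPolynomial.decomposition.decompose'_apply p i
  rwa [h3] at h2

/-- The graded trace on the ring. -/
def G (g : Equiv.Perm (Fin r × Fin d)) (τ : Equiv.Perm (Fin r))
    (hg : ∀ s, (g s).1 = τ s.1) (k m : ℕ) : PowerSeries ℚ :=
  gtr (Jk r d k m) g (stab r d g τ hg k m)

variable {r d}

theorem G_step (hUB : S_UB) (hCC : S_CC) (hSPZ : S_SPZ) (hGEN : S_GEN) (hBAS : S_BAS)
    (hTREX : S_TREX) (hr : 0 < r) (hd : 0 < d) (g : Equiv.Perm (Fin r × Fin d))
    (τ : Equiv.Perm (Fin r)) (hg : ∀ s, (g s).1 = τ s.1) (k m : ℕ) (hm : m + 1 ≤ r * d)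
    (hk : m + 1 ≤ k) :
    G r d g τ hg k (m + 1) = G r d g τ hg k m - PowerSeries.X ^ (r * d - m) * G r d g τ hg (k - 1) m := by
  have h := hTREX (Fin r × Fin d) (Jk r d k m) (Jk r d (k - 1) m) (Jk r d k (m + 1))
    (esymm (Fin r × Fin d) ℚ (r * d - m)) (r * d - m) g (stab r d g τ hg _ _)
    (stab r d g τ hg _ _) (stab r d g τ hg _ _) (homog r d k m) (esymm_hom _)
    (rename_esymm _ _ _ _) (step_eq r d k m (by omega))
    (colon r d hUB hCC hSPZ hGEN hBAS hr hd k m hm hk)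
  unfold G
  rw [h]
  ring

theorem G_sum (hUB : S_UB) (hCC : S_CC) (hSPZ : S_SPZ) (hGEN : S_GEN) (hBAS : S_BAS)
    (hTREX : S_TREX) (hr : 0 < r) (hd : 0 < d) (g : Equiv.Perm (Fin r × Fin d))
    (τ : Equiv.Perm (Fin r)) (hg : ∀ s, (g s).1 = τ s.1) (m : ℕ) (hm : m ≤ r * d) :
    ∀ k, m ≤ k → G r d g τ hg k m = ∑ s ∈ (Finset.Icc (r * d + 1 - m) (r * d)).powerset,
      (-1) ^ s.card * PowerSeries.X ^ (∑ i ∈ s, i) * G r d g τ hg (k - s.card) 0 := by
  induction m with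
  | zero =>
    intro k _
    have : Finset.Icc (r * d + 1 - 0) (r * d) = ∅ := by
      rw [Finset.Icc_eq_empty]
      omega
    rw [this]
    simp
  | succ m ih =>
    intro k hk
    rw [G_step hUB hCC hSPZ hGEN hBAS hTREX hr hd g τ hg k m hm hk, ih (by omega) k (by omega),
      ih (by omega) (k - 1) (by omega)]
    have h1 : Finset.Icc (r * d + 1 - (m + 1)) (r * d) =
        insert (r * d - m) (Finset.Icc (r * d + 1 - m) (r * d)) := by
      ext x
      rw [Finset.mem_insert, Finset.mem_Icc, Finset.mem_Icc]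
      omega
    have h2 : (r * d - m) ∉ (Finset.Icc (r * d + 1 - m) (r * d)) := by
      rw [Finset.mem_Icc]
      omega
    rw [h1, Finset.sum_powerset_insert h2, sub_eq_add_neg]
    congr 1
    rw [Finset.mul_sum, ← Finset.sum_neg_distrib]
    refine Finset.sum_congr rfl ?_
    intro s hs
    have h3 : (r * d - m) ∉ s := fun h => h2 (Finset.mem_powerset.1 hs h)
    rw [Finset.card_insert_of_notMem h3, Finset.sum_insert h3, pow_add, pow_succ,
      show k - (s.card + 1) = k - 1 - s.card by omega]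
    ring

theorem G_top (hr : 0 < r) (g : Equiv.Perm (Fin r × Fin d)) (τ : Equiv.Perm (Fin r))
    (hg : ∀ s, (g s).1 = τ s.1) (k m : ℕ) (hk : k < d) : G r d g τ hg k m = 0 := by
  unfold G gtr
  ext1 i
  rw [PowerSeries.coeff_mk, map_zero]
  have h0 : Subsingleton (MvPolynomial (Fin r × Fin d) ℚ ⧸ Jk r d k m) :=
    Ideal.Quotient.subsingleton_iff.2 (top_of_lt r d k m hr hk)
  have h1 : (act (Jk r d k m) g (stab r d g τ hg k m)).toLinearMap.restrict
      (act_pc (Jk r d k m) g (stab r d g τ hg k m) i) = 0 := by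
    ext x
    exact Subsingleton.elim _ _
  rw [h1, map_zero]

theorem G_zero (hSPZ : S_SPZ) (hGEN : S_GEN) (hBAS : S_BAS) (hTR : S_TR) (hFIXA : S_FIXA)
    (hFIXB : S_FIXB) (hd : 0 < d) (g : Equiv.Perm (Fin r × Fin d))
    (τ : Equiv.Perm (Fin r)) (hg : ∀ s, (g s).1 = τ s.1) (k : ℕ) (hk : d ≤ k) :
    G r d g τ hg k 0 = (∏ l ∈ Finset.range d, cp τ (k - l)) * FixS g (fun _ => 1) := by
  have ha : ∀ s : Fin r × Fin d, 1 ≤ k - (s.2 : ℕ) := fun s => by
    have := s.2.2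
    omega
  have hf : ∀ s : Fin r × Fin d, (fm r d k s).IsHomogeneous (k - (s.2 : ℕ)) := fun s => hs_hom _ _
  have h1 := hBAS (Fin r × Fin d) (fm r d k) (fun s => k - s.2) ha hf (fun p => by
      rw [← (hGEN r d k hd hk).1]
      exact hSPZ r d k hk p)
  have h2 := hTR (Fin r × Fin d) (fm r d k) (fun s => k - s.2) g
    (Equiv.prodCongr τ (Equiv.refl (Fin d))) ha hf
    (fun s => by
      unfold fm
      rw [rename_bat r d g τ hg]
      rfl)
    (fun s => rfl) h1.1 h1.2.1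
  have h3 : ∀ (I : Ideal (MvPolynomial (Fin r × Fin d) ℚ)) (hI : I = Jk r d k 0)
      (h : I ≤ I.comap (rename g : MvPolynomial (Fin r × Fin d) ℚ →ₐ[ℚ] MvPolynomial (Fin r × Fin d) ℚ)),
      gtr I g h = G r d g τ hg k 0 := by
    intro I hI h
    subst hI
    rfl
  have h4 : Ideal.span (Set.range (fm r d k)) = Jk r d k 0 := ((hGEN r d k hd hk).1).symm
  have h5 := h2 (by rw [h4]; exact stab r d g τ hg k 0)
  rw [h3 _ h4] at h5
  rw [h5, hFIXB r d τ (fun l => k - l) (fun l => by have := l.2; omega), ← mul_assoc,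
    Finset.prod_range, ← Finset.prod_mul_distrib]
  have h6 : ∀ l : Fin d, cp τ (k - l) * FixS τ (fun _ => k - (l : ℕ)) = 1 := by
    intro l
    rw [mul_comm]
    exact hFIXA (Fin r) τ (k - l) (by have := l.2; omega)
  rw [Finset.prod_congr rfl (fun l _ => h6 l), Finset.prod_const_one, one_mul]

/-- The numerator of the graded characters. -/
def Fc (r d k : ℕ) (τ : Equiv.Perm (Fin r)) : PowerSeries ℚ :=
  ∑ s ∈ (Finset.Icc (r * d + 1 - k) (r * d)).powerset,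
    if d + s.card ≤ k then
      (-1) ^ s.card * PowerSeries.X ^ (∑ i ∈ s, i) * ∏ l ∈ Finset.range d, cp τ (k - s.card - l)
    else 0

theorem G_full (hUB : S_UB) (hCC : S_CC) (hSPZ : S_SPZ) (hGEN : S_GEN) (hBAS : S_BAS)
    (hTREX : S_TREX) (hTR : S_TR) (hFIXA : S_FIXA)
    (hFIXB : S_FIXB) (hr : 0 < r) (hd : 0 < d) (g : Equiv.Perm (Fin r × Fin d))
    (τ : Equiv.Perm (Fin r)) (hg : ∀ s, (g s).1 = τ s.1) (k : ℕ) (hk : k ≤ r * d) :
    G r d g τ hg k k = Fc r d k τ * FixS g (fun _ => 1) := by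
  rw [G_sum hUB hCC hSPZ hGEN hBAS hTREX hr hd g τ hg k hk k le_rfl, Fc, Finset.sum_mul]
  refine Finset.sum_congr rfl ?_
  intro s hs
  split_ifs with h
  · rw [G_zero hSPZ hGEN hBAS hTR hFIXA hFIXB hd g τ hg (k - s.card) (by omega)]
    ring
  · have h1 : s.card ≤ k := by
      have h2 := Finset.card_le_card (Finset.mem_powerset.1 hs)
      rw [Nat.card_Icc] at h2
      omega
    rw [G_top hr g τ hg (k - s.card) 0 (by omega), mul_zero, zero_mul]

/-! ### The ring of the problem -/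

/-- The ideal `J_{α,k}` of the problem. -/
def JP (r d k : ℕ) : Ideal (MvPolynomial (Fin r × Fin d) ℚ) :=
  Ideal.span ({f | ∃ j, r * d + 1 ≤ j + k ∧ j ≤ r * d ∧ f = esymm (Fin r × Fin d) ℚ j} ∪
    {f | ∃ i j, k + 1 ≤ j + d ∧ j ≤ k ∧ f = hs (bat Prod.fst i) j})

theorem JP_stab (g : Equiv.Perm (Fin r × Fin d)) (τ : Equiv.Perm (Fin r))
    (hg : ∀ s, (g s).1 = τ s.1) (k : ℕ) :
    JP r d k ≤ (JP r d k).comap
      (rename g : MvPolynomial (Fin r × Fin d) ℚ →ₐ[ℚ] MvPolynomial (Fin r × Fin d) ℚ) := by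
  refine Ideal.span_le.2 ?_
  rintro f (⟨j, hj, hj', rfl⟩ | ⟨i, j, hj, hj', rfl⟩)
  · change rename g (esymm (Fin r × Fin d) ℚ j) ∈ JP r d k
    rw [rename_esymm]
    exact Ideal.subset_span (Or.inl ⟨j, hj, hj', rfl⟩)
  · change rename g (hs (bat (Prod.fst : Fin r × Fin d → Fin r) i) j) ∈ JP r d k
    rw [rename_bat r d g τ hg]
    exact Ideal.subset_span (Or.inr ⟨τ i, j, hj, hj', rfl⟩)

theorem JP_eq (hGEN : S_GEN) (hd : 0 < d) (k : ℕ) (hk : d ≤ k) : Jk r d k k = JP r d k :=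
  (hGEN r d k hd hk).2

theorem gtr_JP (hUB : S_UB) (hCC : S_CC) (hSPZ : S_SPZ) (hGEN : S_GEN) (hBAS : S_BAS)
    (hTREX : S_TREX) (hTR : S_TR) (hFIXA : S_FIXA)
    (hFIXB : S_FIXB) (hr : 0 < r) (hd : 0 < d) (g : Equiv.Perm (Fin r × Fin d))
    (τ : Equiv.Perm (Fin r)) (hg : ∀ s, (g s).1 = τ s.1) (k : ℕ) (hdk : d ≤ k) (hk : k ≤ r * d) :
    gtr (JP r d k) g (JP_stab g τ hg k) = Fc r d k τ * FixS g (fun _ => 1) := by
  have h3 : ∀ (I : Ideal (MvPolynomial (Fin r × Fin d) ℚ)) (hI : Jk r d k k = I)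
      (h : I ≤ I.comap (rename g : MvPolynomial (Fin r × Fin d) ℚ →ₐ[ℚ] MvPolynomial (Fin r × Fin d) ℚ)),
      gtr I g h = G r d g τ hg k k := by
    intro I hI h
    subst hI
    rfl
  rw [h3 _ (JP_eq hGEN hd k hdk),
    G_full hUB hCC hSPZ hGEN hBAS hTREX hTR hFIXA hFIXB hr hd g τ hg k hk]

theorem gtrInv_JP (hUB : S_UB) (hCC : S_CC) (hSPZ : S_SPZ) (hGEN : S_GEN) (hBAS : S_BAS)
    (hTREX : S_TREX) (hTR : S_TR) (hFIXA : S_FIXA)
    (hFIXB : S_FIXB) (hAVG : S_AVG) (hORB : S_ORB) (hr : 0 < r) (hd : 0 < d)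
    (g : Equiv.Perm (Fin r × Fin d))
    (τ : Equiv.Perm (Fin r)) (hg : ∀ s, (g s).1 = τ s.1) (k : ℕ) (hdk : d ≤ k) (hk : k ≤ r * d)
    (hI : ∀ u : Equiv.Perm (Fin r × Fin d), (∀ s, (u s).1 = s.1) →
      JP r d k ≤ (JP r d k).comap
        (rename u : MvPolynomial (Fin r × Fin d) ℚ →ₐ[ℚ] MvPolynomial (Fin r × Fin d) ℚ)) :
    gtrInv (JP r d k) hI g τ hg (JP_stab g τ hg k) *
      ∏ l ∈ Finset.range d, cp τ (l + 1) = Fc r d k τ := by
  have hug : ∀ u : BP r d, ∀ s, ((u.1 * g) s).1 = τ s.1 := by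
    intro u s
    rw [Equiv.Perm.mul_apply, u.2, hg]
  have h1 := hAVG r d (JP r d k) hI g τ hg (JP_stab g τ hg k)
    (fun u => JP_stab (u.1 * g) τ (hug u) k)
  have h2 := hORB r d g τ hg
  have h3 : ∑ᶠ u : BP r d, gtr (JP r d k) (u.1 * g) (JP_stab (u.1 * g) τ (hug u) k) =
      Fc r d k τ * ∑ᶠ u : BP r d, FixS (u.1 * g) (fun _ => 1) := by
    rw [mul_finsum]
    refine finsum_congr ?_
    intro u
    rw [gtr_JP hUB hCC hSPZ hGEN hBAS hTREX hTR hFIXA hFIXB hr hd (u.1 * g) τ (hug u) k hdk hk]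
  rw [h3, h2, mul_smul_comm] at h1
  have hc : (Nat.card (BP r d) : ℚ) ≠ 0 := by
    have : Nonempty (BP r d) := ⟨⟨1, fun s => rfl⟩⟩
    exact_mod_cast Nat.card_pos.ne'
  have h4 := smul_right_injective (PowerSeries ℚ) hc h1
  rw [h4, hFIXB r d τ (fun l => (l : ℕ) + 1) (fun l => by omega), mul_assoc, Finset.prod_range,
    ← Finset.prod_mul_distrib]
  have h6 : ∀ l : Fin d, FixS τ (fun _ => (l : ℕ) + 1) * cp τ ((l : ℕ) + 1) = 1 :=
    fun l => hFIXA (Fin r) τ ((l : ℕ) + 1) (by omega)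
  rw [Finset.prod_congr rfl (fun l _ => h6 l), Finset.prod_const_one, mul_one]

end

end Pool.Agent.L7h38.BQ
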