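import Pool.Agent.L7h38.BQ.Hs

/-!
# The exact sequences
-/

set_option autoImplicit false

namespace Pool.Agent.L7h38.BQ

open MvPolynomial Finset

noncomputable section

variable (r d : ℕ)

/-- The ideals for batches of the same size. -/
abbrev Jk (k m : ℕ) : Ideal (MvPolynomial (Fin r × Fin d) ℚ) :=
  J (Prod.fst : Fin r × Fin d → Fin r) (fun _ => k) m

theorem card_bat (i : Fin r) : (bat (Prod.fst : Fin r × Fin d → Fin r) i).card = d := by
  unfold bat
  have h : (Finset.univ.filter (fun s : Fin r × Fin d => s.1 = i)) = ({i} : Finset (Fin r)) ×ˢ Finset.univ := by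
    ext s
    rw [Finset.mem_filter, Finset.mem_product, Finset.mem_singleton]
    simp
  rw [h, Finset.card_product, Finset.card_singleton, Finset.card_univ, Fintype.card_fin, one_mul]

theorem esymm_mem (k m j : ℕ) (h : r * d + 1 ≤ j + m) : esymm (Fin r × Fin d) ℚ j ∈ Jk r d k m := by
  refine Ideal.subset_span (Or.inl ⟨j, ?_, rfl⟩)
  simpa using h

theorem hs_mem (k m j : ℕ) (i : Fin r) (h : k + 1 ≤ j + d) :
    hs (bat (Prod.fst : Fin r × Fin d → Fin r) i) j ∈ Jk r d k m := by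
  refine Ideal.subset_span (Or.inr ⟨i, j, ?_, rfl⟩)
  rw [card_bat]
  exact h

theorem step_eq (k m : ℕ) (hm : m ≤ r * d) :
    Jk r d k (m + 1) = Jk r d k m ⊔ Ideal.span {esymm (Fin r × Fin d) ℚ (r * d - m)} := by
  apply le_antisymm
  · refine Ideal.span_le.2 ?_
    rintro f (⟨j, hj, rfl⟩ | ⟨i, j, hj, rfl⟩)
    · have hc : Fintype.card (Fin r × Fin d) = r * d := by simp
      rw [hc] at hj
      by_cases h : r * d + 1 ≤ j + m
      · exact Ideal.mem_sup_left (esymm_mem r d k m j h)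
      · have : j = r * d - m := by omega
        subst this
        exact Ideal.mem_sup_right (Ideal.subset_span rfl)
    · rw [card_bat] at hj
      exact Ideal.mem_sup_left (hs_mem r d k m j i hj)
  · refine sup_le ?_ ?_
    · refine Ideal.span_le.2 ?_
      rintro f (⟨j, hj, rfl⟩ | ⟨i, j, hj, rfl⟩)
      · have hc : Fintype.card (Fin r × Fin d) = r * d := by simp
        rw [hc] at hj
        exact esymm_mem r d k (m + 1) j (by omega)
      · rw [card_bat] at hj
        exact hs_mem r d k (m + 1) j i hj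
    · rw [Ideal.span_singleton_le_iff_mem]
      exact esymm_mem r d k (m + 1) _ (by omega)

/-- The product of `e_{n-m}` and `h_{k-d}` is in the ideal. -/
theorem mul_mem (k m : ℕ) (hm : m ≤ r * d) (hk : m + 1 ≤ k) (i : Fin r) (j : ℕ) (hj : j + d = k) :
    esymm (Fin r × Fin d) ℚ (r * d - m) * hs (bat (Prod.fst : Fin r × Fin d → Fin r) i) j ∈
      Jk r d k m := by
  have h1 := rel (bat (Prod.fst : Fin r × Fin d → Fin r) i) (r * d - m + j) (by
    rw [card_bat]
    have hc : Fintype.card (Fin r × Fin d) = r * d := by simp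
    rw [hc]
    omega)
  have hmem : ((r * d - m, j) : ℕ × ℕ) ∈ Finset.HasAntidiagonal.antidiagonal (r * d - m + j) := by
    rw [Finset.HasAntidiagonal.mem_antidiagonal]
  rw [← Finset.add_sum_erase _ _ hmem] at h1
  have h2 : ∑ p ∈ (Finset.HasAntidiagonal.antidiagonal (r * d - m + j)).erase (r * d - m, j),
      esymm (Fin r × Fin d) ℚ p.1 *
        ((-1) ^ p.2 * hs (bat (Prod.fst : Fin r × Fin d → Fin r) i) p.2) ∈ Jk r d k m := by
    refine Ideal.sum_mem _ ?_
    rintro ⟨a, b⟩ hab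
    rw [Finset.mem_erase, Finset.HasAntidiagonal.mem_antidiagonal] at hab
    obtain ⟨hne, hab⟩ := hab
    simp only at hab ⊢
    by_cases h : r * d - m < a
    · exact Ideal.mul_mem_right _ _ (esymm_mem r d k m a (by omega))
    · refine Ideal.mul_mem_left _ _ (Ideal.mul_mem_left _ _ (hs_mem r d k m b i ?_))
      have : a ≠ r * d - m := by
        rintro rfl
        apply hne
        rw [Prod.mk.injEq]
        exact ⟨rfl, by omega⟩
      omega
  have h3 : esymm (Fin r × Fin d) ℚ (r * d - m) *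
      ((-1) ^ j * hs (bat (Prod.fst : Fin r × Fin d → Fin r) i) j) ∈ Jk r d k m := by
    rw [eq_neg_of_add_eq_zero_left h1]
    exact (Jk r d k m).neg_mem h2
  have h4 : esymm (Fin r × Fin d) ℚ (r * d - m) *
      hs (bat (Prod.fst : Fin r × Fin d → Fin r) i) j = (-1) ^ j *
        (esymm (Fin r × Fin d) ℚ (r * d - m) *
      ((-1) ^ j * hs (bat (Prod.fst : Fin r × Fin d → Fin r) i) j)) := by
    have : ((-1 : MvPolynomial (Fin r × Fin d) ℚ) ^ j * (-1) ^ j) = 1 := by
      rw [← mul_pow]; simp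
    linear_combination -(esymm (Fin r × Fin d) ℚ (r * d - m) *
      hs (bat (Prod.fst : Fin r × Fin d → Fin r) i) j) * this
  rw [h4]
  exact Ideal.mul_mem_left _ _ h3

theorem mul_step (k m : ℕ) (hm : m ≤ r * d) (hk : m + 1 ≤ k) (p : MvPolynomial (Fin r × Fin d) ℚ)
    (hp : p ∈ Jk r d (k - 1) m) :
    esymm (Fin r × Fin d) ℚ (r * d - m) * p ∈ Jk r d k m := by
  refine Submodule.span_induction (p := fun p _ =>
    esymm (Fin r × Fin d) ℚ (r * d - m) * p ∈ Jk r d k m) ?_ ?_ ?_ ?_ hp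
  · rintro f (⟨j, hj, rfl⟩ | ⟨i, j, hj, rfl⟩)
    · have hc : Fintype.card (Fin r × Fin d) = r * d := by simp
      rw [hc] at hj
      exact Ideal.mul_mem_left _ _ (esymm_mem r d k m j hj)
    · rw [card_bat] at hj
      simp only at hj
      by_cases h : k + 1 ≤ j + d
      · exact Ideal.mul_mem_left _ _ (hs_mem r d k m j i h)
      · exact mul_mem r d k m hm hk i j (by omega)
  · rw [mul_zero]
    exact Ideal.zero_mem _
  · intro x y _ _ hx hy
    rw [mul_add]
    exact Ideal.add_mem _ hx hy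
  · intro a x _ hx
    rw [smul_eq_mul, mul_left_comm]
    exact Ideal.mul_mem_left _ _ hx

/-- Multiplication by `e_{n-m}`. -/
def mulE (k m : ℕ) (hm : m ≤ r * d) (hk : m + 1 ≤ k) :
    (MvPolynomial (Fin r × Fin d) ℚ ⧸ Jk r d (k - 1) m) →ₗ[ℚ]
      (MvPolynomial (Fin r × Fin d) ℚ ⧸ Jk r d k m) :=
  ((Jk r d (k - 1) m).restrictScalars ℚ).mapQ ((Jk r d k m).restrictScalars ℚ)
    (LinearMap.mulLeft ℚ (esymm (Fin r × Fin d) ℚ (r * d - m)))
    (fun p hp => mul_step r d k m hm hk p hp)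

theorem mulE_mk (k m : ℕ) (hm : m ≤ r * d) (hk : m + 1 ≤ k) (p : MvPolynomial (Fin r × Fin d) ℚ) :
    mulE r d k m hm hk (Ideal.Quotient.mk _ p) =
      Ideal.Quotient.mk _ (esymm (Fin r × Fin d) ℚ (r * d - m) * p) := rfl

/-- The projection. -/
def prE (k m : ℕ) (hm : m ≤ r * d) :
    (MvPolynomial (Fin r × Fin d) ℚ ⧸ Jk r d k m) →ₗ[ℚ]
      (MvPolynomial (Fin r × Fin d) ℚ ⧸ Jk r d k (m + 1)) :=
  ((Jk r d k m).restrictScalars ℚ).mapQ ((Jk r d k (m + 1)).restrictScalars ℚ) LinearMap.id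
    (by
      rw [step_eq r d k m hm]
      intro p hp
      exact Ideal.mem_sup_left hp)

theorem prE_mk (k m : ℕ) (hm : m ≤ r * d) (p : MvPolynomial (Fin r × Fin d) ℚ) :
    prE r d k m hm (Ideal.Quotient.mk _ p) = Ideal.Quotient.mk _ p := rfl

theorem ker_prE (k m : ℕ) (hm : m ≤ r * d) (hk : m + 1 ≤ k) :
    LinearMap.ker (prE r d k m hm) = LinearMap.range (mulE r d k m hm hk) := by
  ext x
  obtain ⟨p, rfl⟩ := Ideal.Quotient.mk_surjective x
  rw [LinearMap.mem_ker, prE_mk, Ideal.Quotient.eq_zero_iff_mem, step_eq r d k m hm]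
  constructor
  · intro h
    obtain ⟨a, ha, b, hb, rfl⟩ := Submodule.mem_sup.1 h
    obtain ⟨c, rfl⟩ := Ideal.mem_span_singleton'.1 hb
    refine ⟨Ideal.Quotient.mk _ c, ?_⟩
    rw [mulE_mk, map_add, Ideal.Quotient.eq_zero_iff_mem.2 ha, zero_add, mul_comm]
  · rintro ⟨y, hy⟩
    obtain ⟨c, rfl⟩ := Ideal.Quotient.mk_surjective y
    rw [mulE_mk, Ideal.Quotient.eq] at hy
    have : p = -(esymm (Fin r × Fin d) ℚ (r * d - m) * c - p) +
        c * esymm (Fin r × Fin d) ℚ (r * d - m) := by ring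
    rw [this]
    exact Ideal.add_mem _ (Ideal.mem_sup_left ((Jk r d k m).neg_mem hy))
      (Ideal.mem_sup_right (Ideal.mul_mem_left _ _ (Ideal.subset_span rfl)))

theorem dim_eq (hUB : S_UB) (k m : ℕ) (hm : m ≤ r * d) (hk : m + 1 ≤ k) :
    Module.finrank ℚ (MvPolynomial (Fin r × Fin d) ℚ ⧸ Jk r d k m) +
      Module.finrank ℚ (LinearMap.ker (mulE r d k m hm hk)) =
    Module.finrank ℚ (MvPolynomial (Fin r × Fin d) ℚ ⧸ Jk r d k (m + 1)) +
      Module.finrank ℚ (MvPolynomial (Fin r × Fin d) ℚ ⧸ Jk r d (k - 1) m) := by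
  have := (hUB r d k m (by omega)).1
  have := (hUB r d k (m + 1) (by omega)).1
  have := (hUB r d (k - 1) m (by omega)).1
  have h1 := LinearMap.finrank_range_add_finrank_ker (prE r d k m hm)
  have h2 := LinearMap.finrank_range_add_finrank_ker (mulE r d k m hm hk)
  have h3 : LinearMap.range (prE r d k m hm) = ⊤ := by
    rw [LinearMap.range_eq_top]
    intro x
    obtain ⟨p, rfl⟩ := Ideal.Quotient.mk_surjective x
    exact ⟨Ideal.Quotient.mk _ p, rfl⟩
  rw [h3, finrank_top, ker_prE r d k m hm hk] at h1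
  omega

theorem cc_zero (n : ℕ) (K : Fin n → ℤ) : cc n K 0 = ∏ s, K s := by
  induction n with
  | zero => simp [cc]
  | succ n ih =>
    rw [cc, ih, Fin.prod_univ_succ]
    simp

theorem top_of_lt (k m : ℕ) (hr : 0 < r) (hk : k < d) : Jk r d k m = ⊤ := by
  rw [Ideal.eq_top_iff_one, ← hs_zero (bat (Prod.fst : Fin r × Fin d → Fin r) ⟨0, hr⟩)]
  exact hs_mem r d k m 0 ⟨0, hr⟩ (by omega)

/-- The generators have the expected degrees. -/
theorem finrank_zero (hSPZ : S_SPZ) (hGEN : S_GEN) (hBAS : S_BAS) (hr : 0 < r) (hd : 0 < d) (k : ℕ) :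
    (Module.finrank ℚ (MvPolynomial (Fin r × Fin d) ℚ ⧸ Jk r d k 0) : ℤ) =
      cc (r * d) (fun s => (k : ℤ) - ((s : ℕ) % d : ℕ)) 0 := by
  rw [cc_zero]
  by_cases hk : k < d
  · rw [top_of_lt r d k 0 hr hk]
    have h0 : Subsingleton (MvPolynomial (Fin r × Fin d) ℚ ⧸ (⊤ : Ideal (MvPolynomial (Fin r × Fin d) ℚ))) :=
      Ideal.Quotient.subsingleton_iff.2 rfl
    rw [Module.finrank_zero_of_subsingleton, Nat.cast_zero, eq_comm]
    have hlt : k < r * d := lt_of_lt_of_le hk (Nat.le_mul_of_pos_left d hr)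
    refine Finset.prod_eq_zero (Finset.mem_univ (⟨k, hlt⟩ : Fin (r * d))) ?_
    simp [Nat.mod_eq_of_lt hk]
  · have hdk : d ≤ k := not_lt.1 hk
    have h1 := (hBAS (Fin r × Fin d) (fm r d k) (fun s => k - s.2) (fun s => by
      have := s.2.2; omega) (fun s => hs_hom _ _) (fun p => by
      rw [← (hGEN r d k hd hdk).1]
      exact hSPZ r d k hdk p)).2.2
    rw [← (hGEN r d k hd hdk).1] at h1
    rw [h1, Nat.cast_prod]
    refine Fintype.prod_equiv finProdFinEquiv _ _ ?_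
    rintro ⟨i, l⟩
    have h2 : ((finProdFinEquiv (i, l) : Fin (r * d)) : ℕ) % d = l := by
      simp [finProdFinEquiv, Nat.mod_eq_of_lt l.2]
    rw [h2]
    have := l.2
    simp only
    rw [Nat.cast_sub (by omega)]

theorem finrank_eq (hUB : S_UB) (hCC : S_CC) (hSPZ : S_SPZ) (hGEN : S_GEN) (hBAS : S_BAS)
    (hr : 0 < r) (hd : 0 < d) (m : ℕ) (hm : m ≤ r * d) : ∀ k, m ≤ k →
    (Module.finrank ℚ (MvPolynomial (Fin r × Fin d) ℚ ⧸ Jk r d k m) : ℤ) =
      cc (r * d) (fun s => (k : ℤ) - ((s : ℕ) % d : ℕ)) m := by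
  induction m with
  | zero => intro k _; exact finrank_zero r d hSPZ hGEN hBAS hr hd k
  | succ m ih =>
    intro k hk
    have h1 := ih (by omega) k (by omega)
    have h2 := ih (by omega) (k - 1) (by omega)
    have h3 := dim_eq r d hUB k m (by omega) hk
    have h4 := (hUB r d k (m + 1) hk).2
    have h5 := hCC (r * d) (fun s => (k : ℤ) - ((s : ℕ) % d : ℕ)) m
    have h6 : (fun s : Fin (r * d) => (k : ℤ) - ((s : ℕ) % d : ℕ) - 1) =
        (fun s : Fin (r * d) => ((k - 1 : ℕ) : ℤ) - ((s : ℕ) % d : ℕ)) := by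
      funext s
      rw [Nat.cast_sub (by omega)]
      push_cast
      ring
    rw [h6] at h5
    apply le_antisymm h4
    have h7 : (Module.finrank ℚ (MvPolynomial (Fin r × Fin d) ℚ ⧸ Jk r d k m) : ℤ) ≤
      Module.finrank ℚ (MvPolynomial (Fin r × Fin d) ℚ ⧸ Jk r d k (m + 1)) +
      Module.finrank ℚ (MvPolynomial (Fin r × Fin d) ℚ ⧸ Jk r d (k - 1) m) := by
      exact_mod_cast (by omega :
        Module.finrank ℚ (MvPolynomial (Fin r × Fin d) ℚ ⧸ Jk r d k m) ≤
        Module.finrank ℚ (MvPolynomial (Fin r × Fin d) ℚ ⧸ Jk r d k (m + 1)) +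
        Module.finrank ℚ (MvPolynomial (Fin r × Fin d) ℚ ⧸ Jk r d (k - 1) m))
    rw [h1, h2, h5] at h7
    linarith

/-- **Exactness**: the ideal quotient. -/
theorem colon (hUB : S_UB) (hCC : S_CC) (hSPZ : S_SPZ) (hGEN : S_GEN) (hBAS : S_BAS)
    (hr : 0 < r) (hd : 0 < d) (k m : ℕ) (hm : m + 1 ≤ r * d) (hk : m + 1 ≤ k)
    (p : MvPolynomial (Fin r × Fin d) ℚ) :
    esymm (Fin r × Fin d) ℚ (r * d - m) * p ∈ Jk r d k m ↔ p ∈ Jk r d (k - 1) m := by
  refine ⟨fun hp => ?_, fun hp => mul_step r d k m (by omega) hk p hp⟩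
  have hm' : m ≤ r * d := by omega
  have h1 := finrank_eq r d hUB hCC hSPZ hGEN hBAS hr hd m hm' k (by omega)
  have h2 := finrank_eq r d hUB hCC hSPZ hGEN hBAS hr hd m hm' (k - 1) (by omega)
  have h2' := finrank_eq r d hUB hCC hSPZ hGEN hBAS hr hd (m + 1) hm k (by omega)
  have h3 := dim_eq r d hUB k m hm' hk
  have h5 := hCC (r * d) (fun s => (k : ℤ) - ((s : ℕ) % d : ℕ)) m
  have h6 : (fun s : Fin (r * d) => (k : ℤ) - ((s : ℕ) % d : ℕ) - 1) =
      (fun s : Fin (r * d) => ((k - 1 : ℕ) : ℤ) - ((s : ℕ) % d : ℕ)) := by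
    funext s
    rw [Nat.cast_sub (by omega)]
    push_cast
    ring
  rw [h6] at h5
  rw [← h1, ← h2, ← h2'] at h5
  have h7 : Module.finrank ℚ (LinearMap.ker (mulE r d k m hm' hk)) = 0 := by
    have : (Module.finrank ℚ (MvPolynomial (Fin r × Fin d) ℚ ⧸ Jk r d k m)) =
      Module.finrank ℚ (MvPolynomial (Fin r × Fin d) ℚ ⧸ Jk r d k (m + 1)) +
      Module.finrank ℚ (MvPolynomial (Fin r × Fin d) ℚ ⧸ Jk r d (k - 1) m) := by exact_mod_cast h5
    omega
  have := (hUB r d (k - 1) m (by omega)).1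
  have h8 : LinearMap.ker (mulE r d k m hm' hk) = ⊥ := Submodule.finrank_eq_zero.1 h7
  have h9 : Ideal.Quotient.mk (Jk r d (k - 1) m) p ∈ LinearMap.ker (mulE r d k m hm' hk) := by
    rw [LinearMap.mem_ker, mulE_mk, Ideal.Quotient.eq_zero_iff_mem]
    exact hp
  rw [h8, Submodule.mem_bot, Ideal.Quotient.eq_zero_iff_mem] at h9
  exact h9

end

end Pool.Agent.L7h38.BQ
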