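import Mathlib

/-!
# The batch quotient ring: definitions

`MP_9124ab_co`. All rings are quotients of polynomial rings over `ℚ` in finitely many variables which
are divided into batches by a map `β`.
-/

set_option autoImplicit false

namespace Pool.Agent.L7h38.BQ

open MvPolynomial Finset

noncomputable section

/-- The complete homogeneous symmetric polynomial of degree `j` in the variables in `A`: the sum of
all monomials of degree `j` in these variables. -/
def hs {σ : Type} [DecidableEq σ] (A : Finset σ) (j : ℕ) : MvPolynomial σ ℚ :=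
  ∑ a ∈ A.finsuppAntidiag j, monomial a 1

/-- The variables of batch `i`. -/
def bat {σ I : Type} [Fintype σ] [DecidableEq I] (β : σ → I) (i : I) : Finset σ :=
  Finset.univ.filter (fun s => β s = i)

/-- The ideal generated by the elementary symmetric polynomials `e_j` in all variables with
`j ≥ n + 1 - m`, `n` the number of the variables, and the complete homogeneous symmetric polynomials
`h_j` in the variables of batch `i` with `j ≥ κ i + 1 - d`, `d` the number of its variables. -/
def J {σ I : Type} [Fintype σ] [DecidableEq σ] [DecidableEq I] (β : σ → I) (κ : I → ℕ) (m : ℕ) :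
    Ideal (MvPolynomial σ ℚ) :=
  Ideal.span ({f | ∃ j, Fintype.card σ + 1 ≤ j + m ∧ f = esymm σ ℚ j} ∪
    {f | ∃ i j, κ i + 1 ≤ j + (bat β i).card ∧ f = hs (bat β i) j})

/-- The image in the quotient ring of the homogeneous polynomials of degree `i`. -/
def pc {σ : Type} (I : Ideal (MvPolynomial σ ℚ)) (i : ℕ) : Submodule ℚ (MvPolynomial σ ℚ ⧸ I) :=
  (homogeneousSubmodule σ ℚ i).map (Ideal.Quotient.mkₐ ℚ I).toLinearMap

/-- The action of a permutation `g` of the variables on the quotient ring by a stable ideal. -/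
def act {σ : Type} (I : Ideal (MvPolynomial σ ℚ)) (g : Equiv.Perm σ)
    (h : I ≤ I.comap (rename g : MvPolynomial σ ℚ →ₐ[ℚ] MvPolynomial σ ℚ)) :
    (MvPolynomial σ ℚ ⧸ I) →ₐ[ℚ] (MvPolynomial σ ℚ ⧸ I) :=
  Ideal.quotientMapₐ I (rename g) h

theorem act_pc {σ : Type} (I : Ideal (MvPolynomial σ ℚ)) (g : Equiv.Perm σ)
    (h : I ≤ I.comap (rename g : MvPolynomial σ ℚ →ₐ[ℚ] MvPolynomial σ ℚ)) (i : ℕ) :
    ∀ x ∈ pc I i, (act I g h).toLinearMap x ∈ pc I i := by
  rintro x ⟨p, hp, rfl⟩
  refine ⟨rename g p, ?_, rfl⟩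
  have hp' : p.IsHomogeneous i := hp
  exact hp'.rename_isHomogeneous

/-- The graded trace of a permutation of the variables on the quotient ring: the power series the
`i`-th coefficient of which is the trace on the part of degree `i`. -/
def gtr {σ : Type} (I : Ideal (MvPolynomial σ ℚ)) (g : Equiv.Perm σ)
    (h : I ≤ I.comap (rename g : MvPolynomial σ ℚ →ₐ[ℚ] MvPolynomial σ ℚ)) : PowerSeries ℚ :=
  PowerSeries.mk fun i =>
    LinearMap.trace ℚ (pc I i) ((act I g h).toLinearMap.restrict (act_pc I g h i))

/-- The generating function of the functions `μ : σ → ℕ` which are constant on the cycles of `π`;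
the degree of `μ` is `∑ a s * μ s`. -/
def FixS {σ : Type} [Fintype σ] (π : Equiv.Perm σ) (a : σ → ℕ) : PowerSeries ℚ :=
  PowerSeries.mk fun i => (Nat.card {μ : σ → ℕ // (∀ s, μ (π s) = μ s) ∧ ∑ s, a s * μ s = i} : ℚ)

/-- The cycles of a permutation, fixed points included. -/
abbrev Cyc {α : Type} (τ : Equiv.Perm α) : Type := Quotient (Equiv.Perm.SameCycle.setoid τ)

/-- The length of a cycle. -/
def len {α : Type} {τ : Equiv.Perm α} (ω : Cyc τ) : ℕ := Nat.card {x : α // (⟦x⟧ : Cyc τ) = ω}

/-- The product of `1 - q ^ (a * c)` over the lengths `c` of the cycles of `τ`. -/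
def cp {α : Type} (τ : Equiv.Perm α) (a : ℕ) : PowerSeries ℚ :=
  ∏ᶠ ω : Cyc τ, (1 - PowerSeries.X ^ (a * len ω))

end

end Pool.Agent.L7h38.BQ
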