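import Pool.Agent.L7h38.BQ.Col

/-!
# Renaming the variables and the generators of the ideal
-/

set_option autoImplicit false

namespace Pool.Agent.L7h38.BQ

open MvPolynomial Finset

noncomputable section

theorem rename_hs' {σ σ' : Type} [DecidableEq σ] [DecidableEq σ'] (g : σ ≃ σ') (A : Finset σ)
    (B : Finset σ') (j : ℕ) (hAB : ∀ s, g s ∈ B ↔ s ∈ A) : rename g (hs A j) = hs B j := by
  classical
  unfold hs
  rw [map_sum]
  refine Finset.sum_nbij' (fun a => Finsupp.mapDomain g a) (fun a => Finsupp.mapDomain g.symm a)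
    ?_ ?_ ?_ ?_ ?_
  · intro a ha
    rw [mem_finsuppAntidiag] at ha ⊢
    have hD : B = A.map g.toEmbedding := by
      ext x
      rw [Finset.mem_map_equiv, ← hAB, g.apply_symm_apply]
    constructor
    · rw [hD, Finset.sum_map, ← ha.1]
      refine Finset.sum_congr rfl ?_
      intro s _
      exact Finsupp.mapDomain_apply g.injective a s
    · intro x hx
      have h1 := Finsupp.mapDomain_support hx
      obtain ⟨s, hs, rfl⟩ := Finset.mem_image.1 h1
      exact (hAB s).2 (ha.2 hs)
  · intro a ha
    rw [mem_finsuppAntidiag] at ha ⊢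
    have hD : A = B.map g.symm.toEmbedding := by
      ext x
      rw [Finset.mem_map_equiv, Equiv.symm_symm, hAB]
    constructor
    · rw [hD, Finset.sum_map, ← ha.1]
      refine Finset.sum_congr rfl ?_
      intro s _
      exact Finsupp.mapDomain_apply g.symm.injective a s
    · intro x hx
      have h1 := Finsupp.mapDomain_support hx
      obtain ⟨s, hs, rfl⟩ := Finset.mem_image.1 h1
      rw [← hAB, g.apply_symm_apply]
      exact ha.2 hs
  · intro a _
    rw [← Finsupp.mapDomain_comp]
    simp
  · intro a _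
    rw [← Finsupp.mapDomain_comp]
    simp
  · intro a _
    rw [rename_monomial]

theorem s_TRF : S_TRF := by
  intro I σ σ' _ _ _ _ _ e β κ m
  have hb : ∀ i s, e s ∈ bat (β ∘ e.symm) i ↔ s ∈ bat β i := by
    intro i s
    unfold bat
    rw [Finset.mem_filter, Finset.mem_filter]
    simp
  have hcard : ∀ i, (bat (β ∘ e.symm) i).card = (bat β i).card := by
    intro i
    refine (Finset.card_bij (fun s _ => e s) ?_ ?_ ?_).symm
    · exact fun s hs => (hb i s).2 hs
    · exact fun a _ b _ h => e.injective h
    · intro b hb'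
      refine ⟨e.symm b, ?_, e.apply_symm_apply b⟩
      rw [← hb, e.apply_symm_apply]
      exact hb'
  unfold J
  rw [Ideal.map_span]
  congr 1
  ext f
  constructor
  · rintro ⟨p, (⟨j, hj, rfl⟩ | ⟨i, j, hj, rfl⟩), rfl⟩
    · refine Or.inl ⟨j, ?_, ?_⟩
      · rwa [Fintype.card_congr e] at hj
      · exact rename_esymm _ _ _ _
    · refine Or.inr ⟨i, j, ?_, ?_⟩
      · rwa [hcard]
      · exact rename_hs' e _ _ j (hb i)
  · rintro (⟨j, hj, rfl⟩ | ⟨i, j, hj, rfl⟩)
    · refine ⟨esymm σ ℚ j, Or.inl ⟨j, ?_, rfl⟩, ?_⟩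
      · rwa [Fintype.card_congr e]
      · exact rename_esymm _ _ _ _
    · refine ⟨hs (bat β i) j, Or.inr ⟨i, j, ?_, rfl⟩, ?_⟩
      · rwa [hcard] at hj
      · exact rename_hs' e _ _ j (hb i)

/-- The recursion for the complete homogeneous symmetric polynomials. -/
theorem rel' {σ : Type} [DecidableEq σ] (A : Finset σ) (N : ℕ) (hN : 0 < N) :
    ∑ p ∈ Finset.HasAntidiagonal.antidiagonal N, es A p.1 * ((-1) ^ p.2 * hs A p.2) = 0 := by
  have h1 : (PowerSeries.mk fun j => es A j) * Hs A = 1 := by
    rw [← prod_es, prod_Hs]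
  have h2 := congrArg (PowerSeries.coeff N) h1
  rw [PowerSeries.coeff_mul, PowerSeries.coeff_one, if_neg hN.ne'] at h2
  unfold Hs at h2
  simp only [PowerSeries.coeff_mk] at h2
  exact h2

theorem es_big {σ : Type} (A : Finset σ) (j : ℕ) (hj : A.card < j) : es A j = 0 := by
  unfold es
  rw [Finset.powersetCard_eq_empty.2 hj, Finset.sum_empty]

theorem hs_mem_of {σ : Type} [DecidableEq σ] (A : Finset σ) (k : ℕ) (I : Ideal (MvPolynomial σ ℚ))
    (hI : ∀ j, k + 1 ≤ j + A.card → j ≤ k → hs A j ∈ I) (j : ℕ) (hj : k + 1 ≤ j + A.card) :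
    hs A j ∈ I := by
  induction j using Nat.strong_induction_on with
  | _ j ih =>
    by_cases hjk : j ≤ k
    · exact hI j hj hjk
    · have h1 := rel' A j (by omega)
      have hmem : ((0, j) : ℕ × ℕ) ∈ Finset.HasAntidiagonal.antidiagonal j := by
        rw [Finset.HasAntidiagonal.mem_antidiagonal]
        simp
      rw [← Finset.add_sum_erase _ _ hmem] at h1
      have h2 : ∑ p ∈ (Finset.HasAntidiagonal.antidiagonal j).erase (0, j),
          es A p.1 * ((-1) ^ p.2 * hs A p.2) ∈ I := by
        refine Ideal.sum_mem _ ?_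
        rintro ⟨a, b⟩ hab
        rw [Finset.mem_erase, Finset.HasAntidiagonal.mem_antidiagonal] at hab
        obtain ⟨hne, hab⟩ := hab
        simp only at hab ⊢
        have ha : a ≠ 0 := by
          rintro rfl
          apply hne
          rw [zero_add] at hab
          rw [hab]
        by_cases had : A.card < a
        · rw [es_big A a had, zero_mul]
          exact I.zero_mem
        · exact Ideal.mul_mem_left _ _ (Ideal.mul_mem_left _ _ (ih b (by omega) (by omega)))
      have h3 : es A 0 * ((-1) ^ j * hs A j) ∈ I := by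
        rw [eq_neg_of_add_eq_zero_left h1]
        exact I.neg_mem h2
      have h0 : es A 0 = 1 := by
        unfold es
        simp
      rw [h0, one_mul] at h3
      have h4 : hs A j = (-1) ^ j * ((-1) ^ j * hs A j) := by
        rw [← mul_assoc, ← mul_pow]
        simp
      rw [h4]
      exact Ideal.mul_mem_left _ _ h3

theorem s_GEN : S_GEN := by
  intro r d k hd hdk
  constructor
  · apply le_antisymm
    · refine Ideal.span_le.2 ?_
      rintro f (⟨j, hj, rfl⟩ | ⟨i, j, hj, rfl⟩)
      · rw [← es_univ, es_big _ _ (by rw [Finset.card_univ]; omega)]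
        exact Ideal.zero_mem _
      · refine hs_mem_of _ k _ ?_ j hj
        intro j hj hjk
        rw [card_bat] at hj
        have hl : k - j < d := by omega
        refine Ideal.subset_span ⟨(i, ⟨k - j, hl⟩), ?_⟩
        unfold fm
        have : k - (k - j) = j := by omega
        simp only [this]
    · refine Ideal.span_le.2 ?_
      rintro _ ⟨s, rfl⟩
      refine Ideal.subset_span (Or.inr ⟨s.1, k - s.2, ?_, rfl⟩)
      rw [card_bat]
      have := s.2.2
      simp only
      omega
  · apply le_antisymm
    · refine Ideal.span_le.2 ?_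
      rintro f (⟨j, hj, rfl⟩ | ⟨i, j, hj, rfl⟩)
      · have hc : Fintype.card (Fin r × Fin d) = r * d := by simp
        by_cases hjn : j ≤ r * d
        · rw [hc] at hj
          exact Ideal.subset_span (Or.inl ⟨j, hj, hjn, rfl⟩)
        · rw [← es_univ, es_big _ _ (by rw [Finset.card_univ, hc]; omega)]
          exact Ideal.zero_mem _
      · refine hs_mem_of _ k _ ?_ j hj
        intro j hj hjk
        rw [card_bat] at hj
        exact Ideal.subset_span (Or.inr ⟨i, j, hj, hjk, rfl⟩)
    · refine Ideal.span_le.2 ?_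
      rintro f (⟨j, hj, hj', rfl⟩ | ⟨i, j, hj, hj', rfl⟩)
      · refine Ideal.subset_span (Or.inl ⟨j, ?_, rfl⟩)
        have hc : Fintype.card (Fin r × Fin d) = r * d := by simp
        rw [hc]
        exact hj
      · refine Ideal.subset_span (Or.inr ⟨i, j, ?_, rfl⟩)
        rw [card_bat]
        exact hj

end

end Pool.Agent.L7h38.BQ
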