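import Pool.Agent.L7h38.BQ.Stm

/-!
# The complete homogeneous symmetric polynomials of a set of variables
-/

set_option autoImplicit false

namespace Pool.Agent.L7h38.BQ

open MvPolynomial Finset

noncomputable section

variable {σ : Type} [DecidableEq σ]

theorem hs_zero (A : Finset σ) : hs A 0 = 1 := by
  unfold hs
  rw [Finset.finsuppAntidiag_zero]
  simp

theorem hs_empty (j : ℕ) : hs (∅ : Finset σ) j = if j = 0 then 1 else 0 := by
  unfold hs
  rw [Finset.finsuppAntidiag_empty]
  split_ifs with h
  · simp
  · simp

theorem hs_insert (A : Finset σ) (y : σ) (hy : y ∉ A) (j : ℕ) :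
    hs (insert y A) (j + 1) = hs A (j + 1) + X y * hs (insert y A) j := by
  classical
  unfold hs
  rw [Finset.mul_sum]
  have h1 : (insert y A).finsuppAntidiag (j + 1) =
      (A.finsuppAntidiag (j + 1)) ∪
        ((insert y A).finsuppAntidiag j).image (fun a => a + Finsupp.single y 1) := by
    ext a
    simp only [mem_union, mem_image, mem_finsuppAntidiag]
    constructor
    · rintro ⟨h1, h2⟩
      by_cases hay : a y = 0
      · left
        refine ⟨?_, ?_⟩
        · rw [Finset.sum_insert hy, hay, zero_add] at h1
          exact h1
        · intro s hs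
          rcases Finset.mem_insert.1 (h2 hs) with h | h
          · subst h
            exact absurd hay (Finsupp.mem_support_iff.1 hs)
          · exact h
      · right
        have hle : Finsupp.single y 1 ≤ a := by
          rw [Finsupp.single_le_iff]
          exact Nat.one_le_iff_ne_zero.2 hay
        refine ⟨a - Finsupp.single y 1, ⟨?_, ?_⟩, ?_⟩
        · have h3 : ∑ s ∈ insert y A, ((a - Finsupp.single y 1 : σ →₀ ℕ) s + (Finsupp.single y 1 : σ →₀ ℕ) s) = j + 1 := by
            rw [← h1]
            refine Finset.sum_congr rfl ?_
            intro s _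
            have := DFunLike.congr_fun (tsub_add_cancel_of_le hle) s
            simpa using this
          rw [Finset.sum_add_distrib] at h3
          have h4 : ∑ s ∈ insert y A, (Finsupp.single y 1 : σ →₀ ℕ) s = 1 := by
            rw [Finset.sum_insert hy]
            have : ∑ s ∈ A, (Finsupp.single y 1 : σ →₀ ℕ) s = 0 := by
              refine Finset.sum_eq_zero ?_
              intro s hs
              rw [Finsupp.single_apply, if_neg]
              rintro rfl
              exact hy hs
            rw [this]
            simp
          rw [h4] at h3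
          exact Nat.add_right_cancel h3
        · refine Finset.Subset.trans ?_ h2
          exact Finsupp.support_tsub
        · exact tsub_add_cancel_of_le hle
    · rintro (⟨h1, h2⟩ | ⟨b, ⟨h1, h2⟩, rfl⟩)
      · refine ⟨?_, h2.trans (Finset.subset_insert _ _)⟩
        rw [Finset.sum_insert hy, h1]
        have : a y = 0 := by
          by_contra h
          exact hy (h2 (Finsupp.mem_support_iff.2 h))
        rw [this, zero_add]
      · refine ⟨?_, ?_⟩
        · simp only [Finsupp.coe_add, Pi.add_apply]
          rw [Finset.sum_add_distrib, h1]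
          congr 1
          rw [Finset.sum_insert hy]
          have : ∑ s ∈ A, (Finsupp.single y 1 : σ →₀ ℕ) s = 0 := by
            refine Finset.sum_eq_zero ?_
            intro s hs
            rw [Finsupp.single_apply, if_neg]
            rintro rfl
            exact hy hs
          rw [this]
          simp
        · refine Finsupp.support_add.trans ?_
          refine Finset.union_subset h2 ?_
          refine Finsupp.support_single_subset.trans ?_
          intro s hs
          rw [Finset.mem_singleton] at hs
          subst hs
          exact Finset.mem_insert_self _ _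
  have h2 : Disjoint (A.finsuppAntidiag (j + 1))
      (((insert y A).finsuppAntidiag j).image (fun a => a + Finsupp.single y 1)) := by
    rw [Finset.disjoint_left]
    intro a ha hb
    rw [mem_finsuppAntidiag] at ha
    obtain ⟨b, -, rfl⟩ := Finset.mem_image.1 hb
    apply hy
    apply ha.2
    rw [Finsupp.mem_support_iff]
    simp
  rw [h1, Finset.sum_union h2, Finset.sum_image]
  · congr 1
    refine Finset.sum_congr rfl ?_
    intro a _
    rw [X, monomial_mul, one_mul, add_comm]
  · intro a _ b _ h
    exact add_right_cancel h

theorem hs_hom (A : Finset σ) (j : ℕ) : (hs A j).IsHomogeneous j := by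
  unfold hs
  refine IsHomogeneous.sum _ _ _ ?_
  intro a ha
  rw [mem_finsuppAntidiag] at ha
  refine isHomogeneous_monomial _ ?_
  rw [← ha.1, Finsupp.degree]
  exact Finset.sum_subset ha.2 (fun s _ hs => Finsupp.notMem_support_iff.1 hs)

/-- The generating function with signs. -/
def Hs (A : Finset σ) : PowerSeries (MvPolynomial σ ℚ) :=
  PowerSeries.mk fun b => (-1) ^ b * hs A b

theorem Hs_insert (A : Finset σ) (y : σ) (hy : y ∉ A) :
    (1 + PowerSeries.C (X y : MvPolynomial σ ℚ) * PowerSeries.X) * Hs (insert y A) = Hs A := by
  ext1 j
  rw [add_mul, one_mul, map_add]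
  unfold Hs
  rw [mul_assoc, PowerSeries.coeff_C_mul]
  rcases j with _ | j
  · rw [PowerSeries.coeff_zero_X_mul]
    simp [hs_zero]
  · rw [PowerSeries.coeff_succ_X_mul]
    simp only [PowerSeries.coeff_mk]
    rw [hs_insert A y hy j]
    ring

theorem prod_Hs (A : Finset σ) :
    (∏ s ∈ A, (1 + PowerSeries.C (X s : MvPolynomial σ ℚ) * PowerSeries.X)) * Hs A = 1 := by
  induction A using Finset.induction_on with
  | empty =>
    rw [Finset.prod_empty, one_mul]
    ext1 j
    unfold Hs
    rw [PowerSeries.coeff_mk, hs_empty, PowerSeries.coeff_one]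
    split_ifs with h
    · rw [h]; simp
    · simp
  | insert y A hy ih =>
    rw [Finset.prod_insert hy, mul_right_comm, Hs_insert A y hy, mul_comm, ih]

/-- The elementary symmetric polynomials of a set of variables. -/
def es (A : Finset σ) (j : ℕ) : MvPolynomial σ ℚ := ∑ t ∈ A.powersetCard j, ∏ s ∈ t, X s

omit [DecidableEq σ] in
theorem es_univ [Fintype σ] (j : ℕ) : es (Finset.univ : Finset σ) j = esymm σ ℚ j := rfl

omit [DecidableEq σ] in
theorem prod_es (A : Finset σ) :
    (∏ s ∈ A, (1 + PowerSeries.C (X s : MvPolynomial σ ℚ) * PowerSeries.X)) =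
      PowerSeries.mk fun j => es A j := by
  ext1 j
  rw [Finset.prod_one_add, PowerSeries.coeff_mk, map_sum]
  unfold es
  rw [← Finset.sum_filter_add_sum_filter_not A.powerset (fun t => t.card = j)]
  have h0 : ∑ t ∈ A.powerset.filter (fun t => ¬ t.card = j),
      (PowerSeries.coeff j) (∏ s ∈ t, (PowerSeries.C (X s : MvPolynomial σ ℚ) * PowerSeries.X)) = 0 := by
    refine Finset.sum_eq_zero ?_
    intro t ht
    rw [Finset.mem_filter] at ht
    rw [Finset.prod_mul_distrib, Finset.prod_const, ← map_prod, PowerSeries.coeff_C_mul,
      PowerSeries.coeff_X_pow, if_neg (fun h => ht.2 h.symm), mul_zero]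
  rw [h0, add_zero, ← Finset.powersetCard_eq_filter]
  refine Finset.sum_congr rfl ?_
  intro t ht
  rw [Finset.mem_powersetCard] at ht
  rw [Finset.prod_mul_distrib, Finset.prod_const, ← map_prod, PowerSeries.coeff_C_mul,
    PowerSeries.coeff_X_pow, if_pos ht.2.symm, mul_one]

/-- The relation between the elementary symmetric polynomials in all variables and the complete
homogeneous symmetric polynomials in the variables in `A`. -/
theorem rel [Fintype σ] (A : Finset σ) (N : ℕ) (hN : Fintype.card σ < N + A.card) :
    ∑ p ∈ Finset.HasAntidiagonal.antidiagonal N, esymm σ ℚ p.1 * ((-1) ^ p.2 * hs A p.2) = 0 := by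
  have h1 : (PowerSeries.mk fun j => es (Finset.univ : Finset σ) j) * Hs A =
      PowerSeries.mk fun j => es Aᶜ j := by
    rw [← prod_es, ← prod_es, ← Finset.prod_mul_prod_compl A, mul_right_comm, prod_Hs, one_mul]
  have h2 := congrArg (PowerSeries.coeff N) h1
  rw [PowerSeries.coeff_mul, PowerSeries.coeff_mk] at h2
  unfold Hs at h2
  simp only [PowerSeries.coeff_mk, es_univ] at h2
  rw [h2]
  unfold es
  rw [Finset.powersetCard_eq_empty.2, Finset.sum_empty]
  rw [Finset.card_compl]
  have := Finset.card_le_univ A
  omega

end

end Pool.Agent.L7h38.BQ
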