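import Pool.Agent.L7h38.BQ.Asm
import Pool.Agent.L7h38.BQ.Gen
import Pool.Agent.L7h79.BQ.Trex
import Pool.Agent.L7h79.BQ.Tr2
import Pool.Agent.L7h79.BQ.Bas
import Pool.Agent.L7h35.BQ.Sp
import Pool.Agent.L7h35.BQ.Cnt
import Pool.Agent.L7h37.BQ.Fix

/-!
# The graded character of the batch quotient ring
-/

set_option autoImplicit false

namespace Pool.Agent.L7h38.BQ

open MvPolynomial Finset

noncomputable section

theorem t_UB : S_UB := s_UB Pool.Agent.L7h35.BQ.s_SP Pool.Agent.L7h35.BQ.s_CNT s_TRF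

theorem t_SPZ : S_SPZ := s_SPZ Pool.Agent.L7h35.BQ.s_SP s_TRF

theorem gtr_ring {r d : ℕ} (hr : 0 < r) (hd : 0 < d) (g : Equiv.Perm (Fin r × Fin d))
    (τ : Equiv.Perm (Fin r)) (hg : ∀ s, (g s).1 = τ s.1) (k : ℕ) (hdk : d ≤ k) (hk : k ≤ r * d) :
    gtr (JP r d k) g (JP_stab g τ hg k) = Fc r d k τ * FixS g (fun _ => 1) :=
  gtr_JP t_UB Pool.Agent.L7h35.BQ.s_CC t_SPZ s_GEN Pool.Agent.L7h79.BQ.s_BAS
    Pool.Agent.L7h79.BQ.s_TREX Pool.Agent.L7h79.BQ.s_TR Pool.Agent.L7h37.BQ.s_FIXA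
    Pool.Agent.L7h37.BQ.s_FIXB hr hd g τ hg k hdk hk

theorem gtr_ring_cp {r d : ℕ} (hr : 0 < r) (hd : 0 < d) (g : Equiv.Perm (Fin r × Fin d))
    (τ : Equiv.Perm (Fin r)) (hg : ∀ s, (g s).1 = τ s.1) (k : ℕ) (hdk : d ≤ k) (hk : k ≤ r * d) :
    gtr (JP r d k) g (JP_stab g τ hg k) * cp g 1 = Fc r d k τ := by
  rw [gtr_ring hr hd g τ hg k hdk hk, mul_assoc, Pool.Agent.L7h37.BQ.s_FIXA _ g 1 le_rfl, mul_one]

theorem JP_top {r d : ℕ} (k : ℕ) (hk : r * d < k) : JP r d k = ⊤ := by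
  rw [Ideal.eq_top_iff_one]
  refine Ideal.subset_span (Or.inl ⟨0, ?_, ?_, ?_⟩)
  · omega
  · omega
  · rw [esymm_zero]

end

end Pool.Agent.L7h38.BQ
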