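import Mathlib

/-!
# MP_9124ab_co: the definitions used by the statements

The variables are `x (i, a)`, `i : Fin r` the batch and `a : Fin d` the place in the batch; `n = r d`.
-/

set_option autoImplicit false

namespace Pool.Agent.L7h38.BQ.Pub

open MvPolynomial Finset

noncomputable section

/-- The polynomial ring in the `n = r d` variables. -/
abbrev R (r d : ℕ) : Type := MvPolynomial (Fin r × Fin d) ℚ

/-- The variables of batch `i`. -/
def batch (r d : ℕ) (i : Fin r) : Finset (Fin r × Fin d) := Finset.univ.filter (fun s => s.1 = i)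

/-- The complete homogeneous symmetric polynomial `h_j` in the variables of batch `i`: the sum of all
monomials of degree `j` in these variables. -/
def h (r d : ℕ) (i : Fin r) (j : ℕ) : R r d := ∑ a ∈ (batch r d i).finsuppAntidiag j, monomial a 1

/-- The ideal `J_{α,k}`, `α = (d, …, d)`, generated by the elementary symmetric polynomials `e_j` in
all variables, `n - k + 1 ≤ j ≤ n`, and by the `h_j` in the variables of one batch,
`k - d + 1 ≤ j ≤ k`. -/
def ideal (r d k : ℕ) : Ideal (R r d) :=
  Ideal.span ({f | ∃ j, r * d + 1 ≤ j + k ∧ j ≤ r * d ∧ f = esymm (Fin r × Fin d) ℚ j} ∪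
    {f | ∃ i j, k + 1 ≤ j + d ∧ j ≤ k ∧ f = h r d i j})

/-- The quotient ring `R / I`. -/
abbrev Quo {r d : ℕ} (I : Ideal (R r d)) : Type := R r d ⧸ I

/-- The projection `R → R / I`. -/
def proj {r d : ℕ} (I : Ideal (R r d)) : R r d →ₐ[ℚ] Quo I := Ideal.Quotient.mkₐ ℚ I

/-- The part of degree `i` of the quotient ring `R / I`: the image of the homogeneous polynomials of
degree `i`. -/
def part {r d : ℕ} (I : Ideal (R r d)) (i : ℕ) : Submodule ℚ (Quo I) :=
  (homogeneousSubmodule (Fin r × Fin d) ℚ i).map (proj I).toLinearMap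

/-- The ideal `I` is stable under the permutation `g` of the variables. -/
def Stable {r d : ℕ} (I : Ideal (R r d)) (g : Equiv.Perm (Fin r × Fin d)) : Prop :=
  ∀ p ∈ I, rename g p ∈ I

/-- The action of `g` on the quotient ring by a stable ideal, by permuting the variables. -/
def act {r d : ℕ} (I : Ideal (R r d)) (g : Equiv.Perm (Fin r × Fin d)) (hs : Stable I g) :
    Quo I →ₐ[ℚ] Quo I :=
  Ideal.quotientMapₐ I (rename g) hs

/-- The action as a linear map. -/
def actL {r d : ℕ} (I : Ideal (R r d)) (g : Equiv.Perm (Fin r × Fin d)) (hs : Stable I g) :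
    Quo I →ₗ[ℚ] Quo I := (act I g hs).toLinearMap

/-- The linear map `f` maps the subspace `W` to itself. -/
def Preserves {V : Type} [AddCommGroup V] [Module ℚ V] (f : V →ₗ[ℚ] V) (W : Submodule ℚ V) : Prop :=
  ∀ x ∈ W, f x ∈ W

theorem act_part {r d : ℕ} (I : Ideal (R r d)) (g : Equiv.Perm (Fin r × Fin d)) (hs : Stable I g)
    (i : ℕ) : Preserves (actL I g hs) (part I i) := by
  rintro x ⟨p, hp, rfl⟩
  refine ⟨rename g p, ?_, rfl⟩
  have hp' : p.IsHomogeneous i := hp
  exact hp'.rename_isHomogeneous

/-- The trace of `f` on an invariant subspace `W`. -/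
def traceOn {V : Type} [AddCommGroup V] [Module ℚ V] (f : V →ₗ[ℚ] V) (W : Submodule ℚ V)
    (hW : Preserves f W) : ℚ := LinearMap.trace ℚ W (f.restrict hW)

/-- The graded character at `g`: the coefficient at `q ^ i` is the trace of `g` on the part of degree
`i`. -/
def gradedTrace {r d : ℕ} (I : Ideal (R r d)) (g : Equiv.Perm (Fin r × Fin d)) (hs : Stable I g) :
    PowerSeries ℚ :=
  PowerSeries.mk fun i => traceOn (actL I g hs) (part I i) (act_part I g hs i)

/-- `I` is stable under the group `𝔖_α` of the permutations which preserve every batch. -/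
def BatchStable {r d : ℕ} (I : Ideal (R r d)) : Prop :=
  ∀ u : Equiv.Perm (Fin r × Fin d), (∀ s, (u s).1 = s.1) → Stable I u

/-- `x` is invariant under the group `𝔖_α`. -/
def IsInv {r d : ℕ} (I : Ideal (R r d)) (hI : BatchStable I) (x : Quo I) : Prop :=
  ∀ (u : Equiv.Perm (Fin r × Fin d)) (hu : ∀ s, (u s).1 = s.1), actL I u (hI u hu) x = x

theorem isInv_add {r d : ℕ} (I : Ideal (R r d)) (hI : BatchStable I) {x y : Quo I}
    (hx : IsInv I hI x) (hy : IsInv I hI y) : IsInv I hI (x + y) := by
  intro u hu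
  rw [map_add, hx u hu, hy u hu]

theorem isInv_zero {r d : ℕ} (I : Ideal (R r d)) (hI : BatchStable I) : IsInv I hI 0 := by
  intro u hu
  rw [map_zero]

theorem isInv_smul {r d : ℕ} (I : Ideal (R r d)) (hI : BatchStable I) (c : ℚ) {x : Quo I}
    (hx : IsInv I hI x) : IsInv I hI (c • x) := by
  intro u hu
  rw [map_smul, hx u hu]

/-- The invariants of the group `𝔖_α` in the quotient ring. -/
def invariants {r d : ℕ} (I : Ideal (R r d)) (hI : BatchStable I) : Submodule ℚ (Quo I) where
  carrier := {x | IsInv I hI x}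
  add_mem' := isInv_add I hI
  zero_mem' := isInv_zero I hI
  smul_mem' := fun c _ hx => isInv_smul I hI c hx

/-- The invariants of degree `i`. -/
def partInv {r d : ℕ} (I : Ideal (R r d)) (hI : BatchStable I) (i : ℕ) : Submodule ℚ (Quo I) :=
  part I i ⊓ invariants I hI

theorem act_partInv {r d : ℕ} (I : Ideal (R r d)) (hI : BatchStable I)
    (g : Equiv.Perm (Fin r × Fin d)) (τ : Equiv.Perm (Fin r)) (hg : ∀ s, (g s).1 = τ s.1)
    (hs : Stable I g) (i : ℕ) : Preserves (actL I g hs) (partInv I hI i) := by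
  rintro x ⟨hx1, hx2⟩
  refine ⟨act_part I g hs i x hx1, ?_⟩
  intro u hu
  have hu' : ∀ s, ((g⁻¹ * u * g) s).1 = s.1 := by
    intro s
    have h1 : τ ((g⁻¹ * u * g) s).1 = τ s.1 := by
      rw [← hg, ← hg]
      have h2 : g ((g⁻¹ * u * g) s) = u (g s) := by
        simp
      rw [h2, hu]
    exact τ.injective h1
  have h3 := hx2 _ hu'
  obtain ⟨p, rfl⟩ := Ideal.Quotient.mk_surjective x
  have h4 : (Ideal.Quotient.mk I (rename (g⁻¹ * u * g) p)) = Ideal.Quotient.mk I p := h3
  change (Ideal.Quotient.mk I (rename u (rename g p))) = Ideal.Quotient.mk I (rename g p)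
  have h5 : rename u (rename g p) = rename g (rename (g⁻¹ * u * g) p) := by
    rw [rename_rename, rename_rename]
    congr 2
    funext s
    simp
  rw [h5]
  exact congrArg (actL I g hs) h4

/-- The graded character of the invariants of `𝔖_α`, a graded `𝔖_r`-module, at the permutation `τ`
of the batches: `τ` acts as any permutation `g` of the variables which maps batch `i` onto batch
`τ i` for all `i`. -/
def gradedTraceInv {r d : ℕ} (I : Ideal (R r d)) (hI : BatchStable I)
    (g : Equiv.Perm (Fin r × Fin d)) (τ : Equiv.Perm (Fin r)) (hg : ∀ s, (g s).1 = τ s.1)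
    (hs : Stable I g) : PowerSeries ℚ :=
  PowerSeries.mk fun i => traceOn (actL I g hs) (partInv I hI i) (act_partInv I hI g τ hg hs i)

/-- The set of the cycles of a permutation, fixed points included. -/
abbrev Cycle {α : Type} (τ : Equiv.Perm α) : Type := Quotient (Equiv.Perm.SameCycle.setoid τ)

/-- The length of a cycle. -/
def length {α : Type} {τ : Equiv.Perm α} (ω : Cycle τ) : ℕ :=
  Nat.card {x : α // (⟦x⟧ : Cycle τ) = ω}

/-- `∏ (1 - q ^ (a c))`, the product over the lengths `c` of the cycles of `τ`. -/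
def cycleProd {α : Type} (τ : Equiv.Perm α) (a : ℕ) : PowerSeries ℚ :=
  ∏ᶠ ω : Cycle τ, (1 - PowerSeries.X ^ (a * length ω))

/-- The sum over the subsets `s` of `{n - k + 1, …, n}` with at most `k - d` elements of
`(-1) ^ |s| q ^ (∑ s) ∏ (1 - q ^ (a c))`, the product over `k - |s| - d < a ≤ k - |s|` and over the
lengths `c` of the cycles of `τ`. -/
def numerator (r d k : ℕ) (τ : Equiv.Perm (Fin r)) : PowerSeries ℚ :=
  ∑ s ∈ (Finset.Icc (r * d + 1 - k) (r * d)).powerset,
    if d + s.card ≤ k then
      (-1) ^ s.card * PowerSeries.X ^ (∑ i ∈ s, i) *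
        ∏ l ∈ Finset.range d, cycleProd τ (k - s.card - l)
    else 0

end

end Pool.Agent.L7h38.BQ.Pub
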