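import Pool.Agent.L7h38.BQ.Defs

/-!
# The batch quotient ring: the parts of the proof

`MP_9124ab_co`. Notation: `R = MvPolynomial (Fin r × Fin d) ℚ`, `n = r d`,
`J k m = J Prod.fst (fun _ => k) m`, `B k m = R ⧸ J k m`. The ring of the problem is `B k k`.

Plan. (1) `B k 0` is a complete intersection with the basis of the monomials with exponents
`< k - l` at `(i, l)`; its graded trace is computed by comparing the monomial basis of `R` with the
basis `∏ f_s ^ (e_s / a_s) x_s ^ (e_s % a_s)`. (2) Multiplication by `e_{n-m}` gives exact sequences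
`0 → B (k-1) m (-(n-m)) → B k m → B k (m+1) → 0`: right exactness is easy, injectivity follows from
the upper bound of the dimensions (`S_SP`, `S_CNT`) and the identity `S_CC`.
-/

set_option autoImplicit false

namespace Pool.Agent.L7h38.BQ

open MvPolynomial Finset

noncomputable section

/-! ### The upper bound -/

/-- The exponents of the standard monomials. -/
def St {I : Type} [DecidableEq I] : (n : ℕ) → (Fin n → I) → (I → ℕ) → ℕ → (Fin n → ℕ) → Prop
  | 0, _, _, m, _ => m = 0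
  | n + 1, β, κ, m, b => b 0 < κ (β 0) ∧
      St n (β ∘ Fin.succ) (Function.update κ (β 0) (κ (β 0) - 1)) (if b 0 < m then m - 1 else m)
        (b ∘ Fin.succ)

/-- [SP] The standard monomials span the quotient ring.
Proof by induction on `n`. Let `z = X 0`, `E' j`, `hs' A j` the polynomials in the variables
`X 1, …, X n` and `ren = rename Fin.succ`. We have `esymm j = ren (esymm j) + z * ren (esymm (j - 1))`,
`hs A j = ren (hs' A j) + z * hs A (j - 1)` for `0 ∈ A` (and `hs A j = ren (hs' A j)` if not).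
(a) `z ^ i ∈ J` for `i ≥ κ (β 0)`: by induction on the number of the variables removed from the batch
`A`, `hs A' j ∈ J` for `A' ⊆ A` nonempty and `j ≥ κ + 1 - |A'|`, as `hs (A' \ {y}) j = hs A' j - y * hs A' (j-1)`.
(b) For `i < κ (β 0)` let `m' = if i < m then m - 1 else m` and
`J' = J (β ∘ succ) (update κ (β 0) (κ (β 0) - 1)) m'`. Then `z ^ i * ren q ∈ z ^ (i+1) R + J` for `q ∈ J'`: it is
enough to check the generators. For `hs'` this is the recursion. For `esymm j`, `j ≥ n + 1 - m'`: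
if `j ≥ n + 2 - m` then `ren (esymm j) = esymm j - z * ren (esymm (j-1))`. Otherwise `m' = m ≤ i`,
`j = n + 1 - m` and `z ^ m * ren (esymm (n + 1 - m)) ∈ J`: by induction on `l ≤ m`,
`z ^ l * ren (esymm (n + 1 - l)) ∈ J`, from `esymm (n + 2 - l) ∈ J` times `z ^ (l-1)`.
(c) Downward induction on `i`: `z ^ i R` is contained in the span of the standard monomials plus `J`; use
`p = ren p₀ + z * p₁`. -/
def S_SP : Prop := ∀ (I : Type) [DecidableEq I] (n : ℕ) (β : Fin n → I) (κ : I → ℕ) (m : ℕ)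
    (p : MvPolynomial (Fin n) ℚ),
    p ∈ Submodule.span ℚ {q : MvPolynomial (Fin n) ℚ | ∃ b : Fin n → ℕ, St n β κ m b ∧
      q = monomial (Finsupp.equivFunOnFinite.symm b) 1} ⊔ (J β κ m).restrictScalars ℚ

/-- The number of the standard exponents. -/
def cc : (n : ℕ) → (Fin n → ℤ) → ℕ → ℤ
  | 0, _, m => if m = 0 then 1 else 0
  | n + 1, K, m => m * cc n (K ∘ Fin.succ) (m - 1) + (K 0 - m) * cc n (K ∘ Fin.succ) m

/-- [CC] Induction on `n`. -/
def S_CC : Prop := ∀ (n : ℕ) (K : Fin n → ℤ) (m : ℕ),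
    cc n K m = cc n K (m + 1) + cc n (fun s => K s - 1) m

/-- [CNT] Induction on `n`; `K s = κ (β s) - #{s' < s | β s' = β s}`. -/
def S_CNT : Prop := ∀ (I : Type) [DecidableEq I] (n : ℕ) (β : Fin n → I) (κ : I → ℕ) (m : ℕ),
    (∀ i, m ≤ κ i) →
    {b : Fin n → ℕ | St n β κ m b}.Finite ∧
    (Nat.card {b : Fin n → ℕ // St n β κ m b} : ℤ) =
      cc n (fun s => (κ (β s) : ℤ) -
        ((Finset.univ.filter (fun s' : Fin n => s' < s ∧ β s' = β s)).card : ℤ)) m

/-- [TRF] Renaming the variables. -/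
def S_TRF : Prop := ∀ (I σ σ' : Type) [DecidableEq I] [Fintype σ] [DecidableEq σ] [Fintype σ']
    [DecidableEq σ'] (e : σ ≃ σ') (β : σ → I) (κ : I → ℕ) (m : ℕ),
    (J β κ m).map (rename e : MvPolynomial σ ℚ →ₐ[ℚ] MvPolynomial σ' ℚ) = J (β ∘ e.symm) κ m

/-- [UB] From `S_SP`, `S_CNT`, `S_TRF` with `finProdFinEquiv : Fin r × Fin d ≃ Fin (r * d)`. -/
def S_UB : Prop := ∀ (r d k m : ℕ), m ≤ k →
    Module.Finite ℚ (MvPolynomial (Fin r × Fin d) ℚ ⧸ J (Prod.fst : Fin r × Fin d → Fin r) (fun _ => k) m) ∧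
    (Module.finrank ℚ (MvPolynomial (Fin r × Fin d) ℚ ⧸
      J (Prod.fst : Fin r × Fin d → Fin r) (fun _ => k) m) : ℤ) ≤
      cc (r * d) (fun s => (k : ℤ) - ((s : ℕ) % d : ℕ)) m

/-- [SPZ] From `S_SP`, `S_TRF` for `m = 0`. -/
def S_SPZ : Prop := ∀ (r d k : ℕ), d ≤ k → ∀ p : MvPolynomial (Fin r × Fin d) ℚ,
    p ∈ Submodule.span ℚ {q : MvPolynomial (Fin r × Fin d) ℚ | ∃ b : Fin r × Fin d →₀ ℕ,
      (∀ s, b s < k - s.2) ∧ q = monomial b 1} ⊔
        (J (Prod.fst : Fin r × Fin d → Fin r) (fun _ => k) 0).restrictScalars ℚ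

/-! ### The complete intersection -/

/-- The generators of the ideal `J k 0`. -/
def fm (r d k : ℕ) (s : Fin r × Fin d) : MvPolynomial (Fin r × Fin d) ℚ :=
  hs (bat Prod.fst s.1) (k - s.2)

/-- [GEN] The complete homogeneous polynomials of degree more than `k` are in the ideal generated by
those with degrees `k - d + 1, …, k`. The last ideal is the ideal of the problem. -/
def S_GEN : Prop := ∀ (r d k : ℕ), 1 ≤ d → d ≤ k →
    J (Prod.fst : Fin r × Fin d → Fin r) (fun _ => k) 0 = Ideal.span (Set.range (fm r d k)) ∧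
    J (Prod.fst : Fin r × Fin d → Fin r) (fun _ => k) k =
      Ideal.span ({f | ∃ j, r * d + 1 ≤ j + k ∧ j ≤ r * d ∧ f = esymm (Fin r × Fin d) ℚ j} ∪
        {f | ∃ i j, k + 1 ≤ j + d ∧ j ≤ k ∧ f = hs (bat Prod.fst i) j})

/-- The family `∏ f_s ^ (e_s / a_s) x_s ^ (e_s % a_s)`. -/
def Bg {σ : Type} [Fintype σ] (f : σ → MvPolynomial σ ℚ) (a : σ → ℕ) (e : σ →₀ ℕ) :
    MvPolynomial σ ℚ :=
  ∏ s, (f s ^ (e s / a s) * X s ^ (e s % a s))

/-- [BAS] (General.) Spanning: graded Nakayama, by induction on the degree. Independence: `Bg e` is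
homogeneous of degree `∑ e`, and so is `monomial e 1`: compare the numbers in every degree. -/
def S_BAS : Prop := ∀ (σ : Type) [Fintype σ] [DecidableEq σ] (f : σ → MvPolynomial σ ℚ) (a : σ → ℕ),
    (∀ s, 1 ≤ a s) → (∀ s, (f s).IsHomogeneous (a s)) →
    (∀ p : MvPolynomial σ ℚ, p ∈ Submodule.span ℚ {q : MvPolynomial σ ℚ | ∃ b : σ →₀ ℕ,
      (∀ s, b s < a s) ∧ q = monomial b 1} ⊔ (Ideal.span (Set.range f)).restrictScalars ℚ) →
    LinearIndependent ℚ (Bg f a) ∧ ⊤ ≤ Submodule.span ℚ (Set.range (Bg f a)) ∧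
    Module.finrank ℚ (MvPolynomial σ ℚ ⧸ Ideal.span (Set.range f)) = ∏ s, a s

/-- [TR] (General.) Let `e = a μ + b` with `b < a`. The coefficient of `Bg e` in
`rename g (Bg e) = f ^ (π μ) * rename g (x ^ b)` is zero unless `π μ = μ`, and then it is the
coefficient of `x ^ b` in `rename g (x ^ b)` modulo the ideal. -/
def S_TR : Prop := ∀ (σ : Type) [Fintype σ] [DecidableEq σ] (f : σ → MvPolynomial σ ℚ) (a : σ → ℕ)
    (g π : Equiv.Perm σ), (∀ s, 1 ≤ a s) → (∀ s, (f s).IsHomogeneous (a s)) →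
    (∀ s, rename g (f s) = f (π s)) → (∀ s, a (π s) = a s) →
    LinearIndependent ℚ (Bg f a) → ⊤ ≤ Submodule.span ℚ (Set.range (Bg f a)) →
    ∀ h : Ideal.span (Set.range f) ≤ (Ideal.span (Set.range f)).comap
      (rename g : MvPolynomial σ ℚ →ₐ[ℚ] MvPolynomial σ ℚ),
    FixS g (fun _ => 1) = FixS π a * gtr (Ideal.span (Set.range f)) g h

/-- [FIXA] Functions which are constant on the cycles are functions on the set of the cycles. -/
def S_FIXA : Prop := ∀ (α : Type) [Fintype α] (τ : Equiv.Perm α) (a : ℕ), 1 ≤ a →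
    FixS τ (fun _ => a) * cp τ a = 1

/-- [FIXB] -/
def S_FIXB : Prop := ∀ (r d : ℕ) (τ : Equiv.Perm (Fin r)) (w : Fin d → ℕ), (∀ l, 1 ≤ w l) →
    FixS (Equiv.prodCongr τ (Equiv.refl (Fin d))) (fun s => w s.2) = ∏ l, FixS τ (fun _ => w l)

/-! ### Exact sequences -/

/-- [TREX] (General.) Additivity of the graded trace for
`0 → R ⧸ I' → R ⧸ I → R ⧸ I'' → 0`, the first map is the multiplication by `e`; see
`Pool.Agent.V11211.trace_eq_add`, `trace_eq_of_surj`, `trace_eq_of_equiv` in `Pool/Agent/V11211/Trace.lean`. -/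
def S_TREX : Prop := ∀ (σ : Type) [Fintype σ] (I I' I'' : Ideal (MvPolynomial σ ℚ))
    (e : MvPolynomial σ ℚ) (c : ℕ) (g : Equiv.Perm σ)
    (h : I ≤ I.comap (rename g : MvPolynomial σ ℚ →ₐ[ℚ] MvPolynomial σ ℚ))
    (h' : I' ≤ I'.comap (rename g : MvPolynomial σ ℚ →ₐ[ℚ] MvPolynomial σ ℚ))
    (h'' : I'' ≤ I''.comap (rename g : MvPolynomial σ ℚ →ₐ[ℚ] MvPolynomial σ ℚ)),
    (∀ p ∈ I, ∀ i, homogeneousComponent i p ∈ I) →
    e.IsHomogeneous c → rename g e = e → I'' = I ⊔ Ideal.span {e} → (∀ p, e * p ∈ I ↔ p ∈ I') →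
    gtr I g h = gtr I'' g h'' + PowerSeries.X ^ c * gtr I' g h'

/-! ### Invariants -/

section inv

variable {r d : ℕ}

/-- The invariants of the permutations which preserve every batch. -/
def inv (I : Ideal (MvPolynomial (Fin r × Fin d) ℚ))
    (hI : ∀ u : Equiv.Perm (Fin r × Fin d), (∀ s, (u s).1 = s.1) →
      I ≤ I.comap (rename u : MvPolynomial (Fin r × Fin d) ℚ →ₐ[ℚ] MvPolynomial (Fin r × Fin d) ℚ)) :
    Submodule ℚ (MvPolynomial (Fin r × Fin d) ℚ ⧸ I) where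
  carrier := {x | ∀ (u : Equiv.Perm (Fin r × Fin d)) (hu : ∀ s, (u s).1 = s.1),
    act I u (hI u hu) x = x}
  add_mem' := by
    intro x y hx hy u hu
    rw [map_add, hx u hu, hy u hu]
  zero_mem' := by
    intro u hu
    rw [map_zero]
  smul_mem' := by
    intro c x hx u hu
    rw [map_smul, hx u hu]

theorem act_inv (I : Ideal (MvPolynomial (Fin r × Fin d) ℚ))
    (hI : ∀ u : Equiv.Perm (Fin r × Fin d), (∀ s, (u s).1 = s.1) →
      I ≤ I.comap (rename u : MvPolynomial (Fin r × Fin d) ℚ →ₐ[ℚ] MvPolynomial (Fin r × Fin d) ℚ))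
    (g : Equiv.Perm (Fin r × Fin d)) (τ : Equiv.Perm (Fin r)) (hg : ∀ s, (g s).1 = τ s.1)
    (h : I ≤ I.comap (rename g : MvPolynomial (Fin r × Fin d) ℚ →ₐ[ℚ] MvPolynomial (Fin r × Fin d) ℚ))
    (i : ℕ) :
    ∀ x ∈ pc I i ⊓ inv I hI, (act I g h).toLinearMap x ∈ pc I i ⊓ inv I hI := by
  rintro x ⟨hx1, hx2⟩
  refine ⟨act_pc I g h i x hx1, ?_⟩
  intro u hu
  have hu' : ∀ s, ((g⁻¹ * u * g) s).1 = s.1 := by
    intro s
    have h1 : τ ((g⁻¹ * u * g) s).1 = τ s.1 := by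
      rw [← hg, ← hg]
      have h2 : g ((g⁻¹ * u * g) s) = u (g s) := by
        simp [Equiv.Perm.mul_apply]
      rw [h2, hu]
    exact τ.injective h1
  have h3 := hx2 _ hu'
  obtain ⟨p, rfl⟩ := Ideal.Quotient.mk_surjective x
  have h4 : (Ideal.Quotient.mk I (rename (g⁻¹ * u * g) p)) = Ideal.Quotient.mk I p := h3
  change (Ideal.Quotient.mk I (rename u (rename g p))) = Ideal.Quotient.mk I (rename g p)
  have h5 : rename u (rename g p) = rename g (rename (g⁻¹ * u * g) p) := by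
    rw [rename_rename, rename_rename]
    congr 2
    funext s
    simp [Equiv.Perm.mul_apply]
  rw [h5]
  have h6 := congrArg (act I g h) h4
  exact h6

/-- The graded trace on the invariants. -/
def gtrInv (I : Ideal (MvPolynomial (Fin r × Fin d) ℚ))
    (hI : ∀ u : Equiv.Perm (Fin r × Fin d), (∀ s, (u s).1 = s.1) →
      I ≤ I.comap (rename u : MvPolynomial (Fin r × Fin d) ℚ →ₐ[ℚ] MvPolynomial (Fin r × Fin d) ℚ))
    (g : Equiv.Perm (Fin r × Fin d)) (τ : Equiv.Perm (Fin r)) (hg : ∀ s, (g s).1 = τ s.1)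
    (h : I ≤ I.comap (rename g : MvPolynomial (Fin r × Fin d) ℚ →ₐ[ℚ] MvPolynomial (Fin r × Fin d) ℚ)) :
    PowerSeries ℚ :=
  PowerSeries.mk fun i => LinearMap.trace ℚ (pc I i ⊓ inv I hI : Submodule ℚ _)
    ((act I g h).toLinearMap.restrict (act_inv I hI g τ hg h i))

end inv

/-- The permutations which preserve every batch. -/
abbrev BP (r d : ℕ) : Type := {u : Equiv.Perm (Fin r × Fin d) // ∀ s, (u s).1 = s.1}

/-- [AVG] The trace on the invariants is the average of the traces (averaging projection). -/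
def S_AVG : Prop := ∀ (r d : ℕ) (I : Ideal (MvPolynomial (Fin r × Fin d) ℚ))
    (hI : ∀ u : Equiv.Perm (Fin r × Fin d), (∀ s, (u s).1 = s.1) →
      I ≤ I.comap (rename u : MvPolynomial (Fin r × Fin d) ℚ →ₐ[ℚ] MvPolynomial (Fin r × Fin d) ℚ))
    (g : Equiv.Perm (Fin r × Fin d)) (τ : Equiv.Perm (Fin r)) (hg : ∀ s, (g s).1 = τ s.1)
    (h : I ≤ I.comap (rename g : MvPolynomial (Fin r × Fin d) ℚ →ₐ[ℚ] MvPolynomial (Fin r × Fin d) ℚ))
    (hh : ∀ u : BP r d, I ≤ I.comap (rename (u.1 * g : Equiv.Perm (Fin r × Fin d)) :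
      MvPolynomial (Fin r × Fin d) ℚ →ₐ[ℚ] MvPolynomial (Fin r × Fin d) ℚ)),
    (Nat.card (BP r d) : ℚ) • gtrInv I hI g τ hg h = ∑ᶠ u : BP r d, gtr I (u.1 * g) (hh u)

/-- [ORB] Burnside count: the orbits of the functions `Fin r × Fin d → ℕ` under `BP r d` which are
fixed by `g` correspond to the functions `μ` fixed by `τ × 1`: in every batch the sorted values are
the sums `∑ l' ≥ l, μ (i, l')`. -/
def S_ORB : Prop := ∀ (r d : ℕ) (g : Equiv.Perm (Fin r × Fin d)) (τ : Equiv.Perm (Fin r)),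
    (∀ s, (g s).1 = τ s.1) →
    ∑ᶠ u : BP r d, FixS (u.1 * g) (fun _ => 1) =
      (Nat.card (BP r d) : ℚ) •
        FixS (Equiv.prodCongr τ (Equiv.refl (Fin d))) (fun s => (s.2 : ℕ) + 1)

end

end Pool.Agent.L7h38.BQ
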