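import Pool.Agent.L7h38.BQ.Col

/-!
# The upper bound, from the statements on the standard monomials
-/

set_option autoImplicit false

namespace Pool.Agent.L7h38.BQ

open MvPolynomial Finset

noncomputable section

variable (r d : ℕ)

/-- The batches of the variables in lexicographic order. -/
abbrev bt : Fin (r * d) → Fin r := Prod.fst ∘ (finProdFinEquiv : Fin r × Fin d ≃ Fin (r * d)).symm

theorem J_bt (hTRF : S_TRF) (k m : ℕ) :
    (J (bt r d) (fun _ => k) m).map
      (rename finProdFinEquiv.symm : MvPolynomial (Fin (r * d)) ℚ →ₐ[ℚ] MvPolynomial (Fin r × Fin d) ℚ) =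
      Jk r d k m := by
  have h := hTRF (Fin r) (Fin (r * d)) (Fin r × Fin d) finProdFinEquiv.symm (bt r d) (fun _ => k) m
  rw [h]
  congr 1
  funext s
  simp [bt]

theorem span_bt (hSP : S_SP) (hTRF : S_TRF) (k m : ℕ) (p : MvPolynomial (Fin r × Fin d) ℚ) :
    p ∈ Submodule.span ℚ {q : MvPolynomial (Fin r × Fin d) ℚ | ∃ b : Fin (r * d) → ℕ,
      St (r * d) (bt r d) (fun _ => k) m b ∧
      q = monomial (Finsupp.equivFunOnFinite.symm (b ∘ finProdFinEquiv)) 1} ⊔
        (Jk r d k m).restrictScalars ℚ := by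
  have h1 := hSP (Fin r) (r * d) (bt r d) (fun _ => k) m (rename finProdFinEquiv p)
  obtain ⟨a, ha, b, hb, hab⟩ := Submodule.mem_sup.1 h1
  have h2 : p = rename finProdFinEquiv.symm a + rename finProdFinEquiv.symm b := by
    rw [← map_add, hab, rename_rename]
    simp
  rw [h2]
  refine Submodule.add_mem _ (Submodule.mem_sup_left ?_) (Submodule.mem_sup_right ?_)
  · clear hab h1 h2
    refine Submodule.span_induction (p := fun a _ => rename finProdFinEquiv.symm a ∈
      Submodule.span ℚ {q : MvPolynomial (Fin r × Fin d) ℚ | ∃ b : Fin (r * d) → ℕ,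
      St (r * d) (bt r d) (fun _ => k) m b ∧
      q = monomial (Finsupp.equivFunOnFinite.symm (b ∘ finProdFinEquiv)) 1}) ?_ ?_ ?_ ?_ ha
    · rintro q ⟨b, hb, rfl⟩
      refine Submodule.subset_span ⟨b, hb, ?_⟩
      rw [rename_monomial]
      have h5 : Finsupp.mapDomain (⇑(finProdFinEquiv : Fin r × Fin d ≃ Fin (r * d)).symm)
          (Finsupp.equivFunOnFinite.symm b) =
          Finsupp.equivFunOnFinite.symm (b ∘ finProdFinEquiv) := by
        ext s
        rw [Finsupp.mapDomain_equiv_apply]
        simp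
      rw [h5]
    · rw [map_zero]
      exact Submodule.zero_mem _
    · intro x y _ _ hx hy
      rw [map_add]
      exact Submodule.add_mem _ hx hy
    · intro c x _ hx
      rw [map_smul]
      exact Submodule.smul_mem _ _ hx
  · change rename finProdFinEquiv.symm b ∈ Jk r d k m
    rw [← J_bt r d hTRF k m]
    exact Ideal.mem_map_of_mem _ hb

theorem card_lt (s : Fin (r * d)) :
    (Finset.univ.filter (fun s' : Fin (r * d) => s' < s ∧ bt r d s' = bt r d s)).card =
      (s : ℕ) % d := by
  have hd : 0 < d := by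
    rcases Nat.eq_zero_or_pos d with h | h
    · subst h
      exact absurd s.2 (by simp)
    · exact h
  have h1 : (Finset.univ.filter (fun s' : Fin (r * d) => s' < s ∧ bt r d s' = bt r d s)).card =
      (Finset.Ico (d * ((s : ℕ) / d)) (s : ℕ)).card := by
    refine Finset.card_bij (fun a _ => (a : ℕ)) ?_ ?_ ?_
    · intro a ha
      rw [Finset.mem_filter] at ha
      obtain ⟨-, ha1, ha2⟩ := ha
      rw [Finset.mem_Ico]
      refine ⟨?_, ha1⟩
      have h3 : (a : ℕ) / d = (s : ℕ) / d := by
        have := congrArg Fin.val ha2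
        simpa [bt, finProdFinEquiv, Fin.divNat] using this
      rw [← h3]
      exact Nat.mul_div_le _ _
    · intro a _ b _ h
      exact Fin.ext h
    · intro a ha
      rw [Finset.mem_Ico] at ha
      refine ⟨⟨a, lt_trans ha.2 s.2⟩, ?_, rfl⟩
      rw [Finset.mem_filter]
      refine ⟨Finset.mem_univ _, ha.2, ?_⟩
      apply Fin.ext
      have h3 : a / d = (s : ℕ) / d := by
        apply le_antisymm
        · exact Nat.div_le_div_right (le_of_lt ha.2)
        · rw [Nat.le_div_iff_mul_le hd, mul_comm]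
          exact ha.1
      simpa [bt, finProdFinEquiv, Fin.divNat] using h3
  rw [h1, Nat.card_Ico]
  have := Nat.div_add_mod (s : ℕ) d
  omega

theorem s_UB (hSP : S_SP) (hCNT : S_CNT) (hTRF : S_TRF) : S_UB := by
  intro r d k m hm
  have h1 := hCNT (Fin r) (r * d) (bt r d) (fun _ => k) m (fun _ => hm)
  obtain ⟨hfin, hcard⟩ := h1
  have hK : (fun s : Fin (r * d) => ((k : ℕ) : ℤ) -
      ((Finset.univ.filter (fun s' : Fin (r * d) => s' < s ∧ bt r d s' = bt r d s)).card : ℤ)) =
      (fun s : Fin (r * d) => (k : ℤ) - ((s : ℕ) % d : ℕ)) := by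
    funext s
    rw [card_lt]
  rw [hK] at hcard
  have hF : Finite {b : Fin (r * d) → ℕ // St (r * d) (bt r d) (fun _ => k) m b} := hfin
  let v : {b : Fin (r * d) → ℕ // St (r * d) (bt r d) (fun _ => k) m b} →
      (MvPolynomial (Fin r × Fin d) ℚ ⧸ Jk r d k m) := fun b =>
    Ideal.Quotient.mk _ (monomial (Finsupp.equivFunOnFinite.symm (b.1 ∘ finProdFinEquiv)) 1)
  have hv : Submodule.span ℚ (Set.range v) = ⊤ := by
    rw [eq_top_iff]
    rintro x -
    obtain ⟨p, rfl⟩ := Ideal.Quotient.mk_surjective x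
    obtain ⟨a, ha, b, hb, rfl⟩ := Submodule.mem_sup.1 (span_bt r d hSP hTRF k m p)
    rw [map_add]
    have hb' : b ∈ Jk r d k m := hb
    rw [Ideal.Quotient.eq_zero_iff_mem.2 hb', add_zero]
    have h2 := Submodule.mem_map_of_mem (f := (Ideal.Quotient.mkₐ ℚ (Jk r d k m)).toLinearMap) ha
    rw [Submodule.map_span] at h2
    refine Submodule.span_mono ?_ h2
    rintro _ ⟨q, ⟨b, hb, rfl⟩, rfl⟩
    exact ⟨⟨b, hb⟩, rfl⟩
  have := Fintype.ofFinite {b : Fin (r * d) → ℕ // St (r * d) (bt r d) (fun _ => k) m b}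
  refine ⟨⟨⟨(Set.finite_range v).toFinset, by rw [Set.Finite.coe_toFinset]; exact hv⟩⟩, ?_⟩
  rw [← hcard]
  have h3 := finrank_range_le_card (R := ℚ) v
  rw [Set.finrank, hv, finrank_top] at h3
  rw [Nat.card_eq_fintype_card]
  exact_mod_cast h3

theorem St_zero {I : Type} [DecidableEq I] (n : ℕ) : ∀ (β : Fin n → I) (κ : I → ℕ) (b : Fin n → ℕ),
    St n β κ 0 b → ∀ s, b s +
      (Finset.univ.filter (fun s' : Fin n => s' < s ∧ β s' = β s)).card < κ (β s) := by
  induction n with
  | zero => intro β κ b _ s; exact s.elim0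
  | succ n ih =>
    intro β κ b hb s
    obtain ⟨h0, h1⟩ := hb
    rw [if_neg (Nat.not_lt_zero _)] at h1
    refine Fin.cases ?_ (fun t => ?_) s
    · have : (Finset.univ.filter (fun s' : Fin (n + 1) => s' < 0 ∧ β s' = β 0)) = ∅ := by
        rw [Finset.filter_eq_empty_iff]
        rintro a - ⟨h, -⟩
        exact absurd h (Fin.not_lt_zero a)
      rw [this, Finset.card_empty, add_zero]
      exact h0
    · have h2 := ih _ _ _ h1 t
      have h3 := Fin.card_filter_univ_succ (fun s' : Fin (n + 1) => s' < t.succ ∧ β s' = β t.succ)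
      have h4 : (Finset.univ.filter (fun s' : Fin n => s'.succ < t.succ ∧ β s'.succ = β t.succ)) =
          (Finset.univ.filter (fun s' : Fin n => s' < t ∧ (β ∘ Fin.succ) s' = (β ∘ Fin.succ) t)) := by
        ext a
        simp [Fin.succ_lt_succ_iff]
      by_cases hβ : β 0 = β t.succ
      · rw [if_pos ⟨Fin.succ_pos t, hβ⟩] at h3
        have h5 : Function.update κ (β 0) (κ (β 0) - 1) ((β ∘ Fin.succ) t) = κ (β 0) - 1 := by
          rw [Function.comp_apply, ← hβ, Function.update_self]
        rw [h5] at h2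
        simp only [Function.comp_def] at h2 h4 h3
        rw [h3, ← hβ]
        rw [← h4] at h2
        simp only [← hβ] at h2 ⊢
        omega
      · rw [if_neg (fun h => hβ h.2)] at h3
        have h5 : Function.update κ (β 0) (κ (β 0) - 1) ((β ∘ Fin.succ) t) = κ (β t.succ) := by
          rw [Function.comp_apply, Function.update_of_ne (fun h => hβ h.symm)]
        rw [h5] at h2
        simp only [Function.comp_def] at h2 h4 h3
        rw [h3]
        rw [← h4] at h2
        exact h2

theorem s_SPZ (hSP : S_SP) (hTRF : S_TRF) : S_SPZ := by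
  intro r d k hdk p
  obtain ⟨x, hx, y, hy, hxy⟩ := Submodule.mem_sup.1 (span_bt r d hSP hTRF k 0 p)
  rw [← hxy]
  refine Submodule.add_mem _ (Submodule.mem_sup_left ?_) (Submodule.mem_sup_right hy)
  refine Submodule.span_mono ?_ hx
  rintro q ⟨b, hb, rfl⟩
  refine ⟨Finsupp.equivFunOnFinite.symm (b ∘ finProdFinEquiv), ?_, rfl⟩
  intro s
  have h1 := St_zero (r * d) (bt r d) (fun _ => k) b hb (finProdFinEquiv s)
  rw [card_lt] at h1
  have h2 : ((finProdFinEquiv s : Fin (r * d)) : ℕ) % d = s.2 := by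
    obtain ⟨i, l⟩ := s
    simp [finProdFinEquiv, Nat.mod_eq_of_lt l.2]
  rw [h2] at h1
  simp only [Finsupp.equivFunOnFinite_symm_apply_apply, Function.comp_apply]
  omega

end

end Pool.Agent.L7h38.BQ
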